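import Pool.Agent.W197.Rig.F1

/-! # One block: the estimate -/

open Complex Filter Topology Set MeasureTheory

namespace Rig

open SG (phi hh nn dd dl ord NZ zmult)
open SP LG

/-- pointwise data at height `T` with parameter `k` -/
structure Dat (C CM CQ CP T : ℝ) (k : ℕ) : Prop where
  dev : ∀ t h : ℝ, 0 ≤ h → h ≤ 30 → T + Real.log T ≤ t → t + h ≤ 2 * T - Real.log T →
    |cnt T t h - h * Real.log T / (2 * Real.pi)| ≤
      C * k * (1 + ‖Q1 (1 / 4) T k t‖ + ‖Q1 (1 / 4) T k (t + h)‖) +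
      C * ‖PSum T h (ell (1 / 4) T k) (W3 (ell (1 / 4) T k)) t‖ +
      C * (1 + Real.log (1 + h * ell (1 / 4) T k))
  mkb : ∀ t : ℝ, T + Real.log T ≤ t → t ≤ 2 * T - Real.log T →
    Mk T k t ≤ CM * k * (1 + ‖Q1 (1 / 4) T k t‖)
  mq : ∀ V1 V2 : ℝ, T ≤ V1 → V1 ≤ V2 → V2 ≤ 2 * T →
    ∫ t in V1..V2, ‖Q1 (1 / 4) T k t‖ ^ (2 * k) ≤ 6 * T * (CQ / k) ^ k
  mp : ∀ h : ℝ, 0 ≤ h → ∀ V1 V2 : ℝ, T ≤ V1 → V1 ≤ V2 → V2 ≤ 2 * T →
    ∫ t in V1..V2, ‖PSum T h (ell (1 / 4) T k) (W3 (ell (1 / 4) T k)) t‖ ^ (2 * k) ≤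
      4 * T * (CP * k * (1 + Real.log (1 + h * ell (1 / 4) T k))) ^ k

theorem block_aux {C CM CQ CP T A0 C4 C5 lam : ℝ} {k m : ℕ} (hD : Dat C CM CQ CP T k)
    (hC : 1 ≤ C) (hCM : 0 < CM) (hCQ : 0 < CQ) (hCP : 1 ≤ CP) (hT100 : 100 ≤ T)
    (hL : 100 ≤ Real.log T) (hLT : 100 * Real.log T ≤ T) (hA0 : A0 = 24 * C)
    (hC4 : C4 = 2 * (1 + Real.log (3 + 3 * A0)) + 1)
    (hC5 : C5 = 16 * C ^ 2 * CP * C4 + 4 * A0 * CQ)
    (hm : 1 ≤ m) (hm3 : (m : ℝ) ≤ 3 * Real.log T) (hk : 1 ≤ k)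
    (hkl : lam ≤ 2 * A0 * k) (hku : A0 * k ≤ lam) (hlamL : lam ≤ Real.log T)
    (hlamv : 8 * C * C4 * Real.log (m + 1) ≤ lam) (N : Finset ℕ)
    (hN : ∀ n ∈ N, 1 ≤ n ∧ T + 3 * Real.log T ≤ ord n ∧ ord n ≤ 2 * T - 3 * Real.log T ∧
      lam ≤ |(ord (n + m) - ord n) * Real.log T / (2 * Real.pi) - m|) :
    (N.card : ℝ) * 2 ≤ (8 * CM * k * (38 * T * (C5 * Real.log (m + 1) / lam) ^ k)) *
      Real.log T := by
  set L := Real.log T with hLd
  have hL0 : 0 < L := by linarith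
  have hTone : 1 ≤ T := by linarith
  have hT0 : 0 < T := by linarith
  have hV : T + 2 * L ≤ 2 * T - 2 * L := by linarith
  have hm1 : (1 : ℝ) ≤ m := by exact_mod_cast hm
  have hA01 : 24 ≤ A0 := by linarith
  have hlA0 : 0 ≤ Real.log (3 + 3 * A0) := Real.log_nonneg (by linarith)
  have hC41 : 1 ≤ C4 := by linarith
  have hC50 : 0 < C5 := by rw [hC5]; positivity
  have hpi := Real.pi_pos
  have hpi4 := Real.pi_lt_four
  set q := Real.log (m + 1) with hq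
  have hq1 : 1 ≤ 2 * q := log_add_one hm
  have hq0 : 0 < q := by linarith
  have hk1r : (1 : ℝ) ≤ k := by exact_mod_cast hk
  have hk0 : (0 : ℝ) < k := by linarith
  have hA0k : A0 ≤ A0 * k := le_mul_of_one_le_right (by linarith) hk1r
  have hlamA0 : A0 ≤ lam := hA0k.trans hku
  have hlam0 : 0 < lam := by linarith
  have hklam : (k : ℝ) ≤ lam := by
    have : (k : ℝ) ≤ A0 * k := le_mul_of_one_le_left hk0.le (by linarith)
    linarith
  have hCk : C * k ≤ lam / 24 := by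
    have : A0 * k = 24 * (C * k) := by rw [hA0]; ring
    linarith
  set l := ell (1 / 4) T k with hl
  have hl0 : 0 < l := MkB.ell_pos (κ := 1 / 4) (by norm_num) (by linarith) hk
  have hlL : l * (8 * k) = 3 * L := by
    rw [hl]
    unfold ell
    field_simp
    ring
  -- the two windows
  obtain ⟨h1, hh1⟩ : ∃ h1 : ℝ, h1 = 2 * Real.pi * (m + lam / 2) / L := ⟨_, rfl⟩
  obtain ⟨h2, hh2⟩ : ∃ h2 : ℝ, h2 = 2 * Real.pi * (max 0 (m - lam / 2)) / L := ⟨_, rfl⟩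
  have hmax0 : 0 ≤ max 0 ((m : ℝ) - lam / 2) := le_max_left _ _
  have hmaxm : max 0 ((m : ℝ) - lam / 2) ≤ m + lam / 2 := max_le (by linarith) (by linarith)
  have h10 : 0 ≤ h1 := by
    rw [hh1]
    have : 0 ≤ m + lam / 2 := by linarith
    positivity
  have h20 : 0 ≤ h2 := by
    rw [hh2]
    positivity
  have h21 : h2 ≤ h1 := by
    rw [hh1, hh2]
    apply div_le_div_of_nonneg_right _ hL0.le
    exact mul_le_mul_of_nonneg_left hmaxm (by positivity)
  have h130 : h1 ≤ 30 := by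
    rw [hh1, div_le_iff₀ hL0]
    calc 2 * Real.pi * (m + lam / 2) ≤ 2 * 4 * (3 * L + L / 2) := by
          apply mul_le_mul _ (by linarith) (by linarith) (by norm_num)
          linarith
      _ ≤ 30 * L := by linarith
  have hvl : ∀ h : ℝ, 0 ≤ h → h ≤ h1 → 1 + Real.log (1 + h * l) ≤ C4 * q := by
    intro h hh0 hhh
    rw [hC4]
    exact log_factor hA01 hk1r hL0 hl0 hlL hm1 hq hq1 hlam0 hkl hh1 hh0 hhh
  have hCv : C * (C4 * q) ≤ lam / 8 := by
    have : 8 * C * C4 * q = 8 * (C * (C4 * q)) := by ring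
    linarith
  -- functions
  obtain ⟨Q, hQd⟩ : ∃ Q : ℝ → ℝ, Q = fun t => ‖Q1 (1 / 4) T k t‖ := ⟨_, rfl⟩
  have hQc : Continuous Q := by
    rw [hQd]
    exact (CTAux.Q1_cont (1 / 4) T k).norm
  have hQ0 : ∀ t, 0 ≤ Q t := fun t => by rw [hQd]; exact norm_nonneg _
  obtain ⟨P, hPd⟩ : ∃ P : ℝ → ℝ → ℝ, P = fun h t => ‖PSum T h l (W3 l) t‖ := ⟨_, rfl⟩
  have hPc : ∀ h, Continuous (P h) := fun h => by
    rw [hPd]
    exact (PSum_cont T h l (W3 l)).norm
  have hP0 : ∀ h t, 0 ≤ P h t := fun h t => by rw [hPd]; exact norm_nonneg _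
  have hdev : ∀ t h : ℝ, 0 ≤ h → h ≤ 30 → T + L ≤ t → t + h ≤ 2 * T - L →
    |cnt T t h - h * L / (2 * Real.pi)| ≤ C * k * (1 + Q t + Q (t + h)) + C * P h t +
      C * (1 + Real.log (1 + h * l)) := by
    intro t h a1 a2 a3 a4
    rw [hQd, hPd]
    exact hD.dev t h a1 a2 a3 a4
  have hmk : ∀ t : ℝ, T + L ≤ t → t ≤ 2 * T - L → Mk T k t ≤ CM * k * (1 + Q t) := by
    intro t a1 a2
    rw [hQd]
    exact hD.mkb t a1 a2
  have hmq : ∀ V1 V2 : ℝ, T ≤ V1 → V1 ≤ V2 → V2 ≤ 2 * T →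
      ∫ t in V1..V2, Q t ^ (2 * k) ≤ 6 * T * (CQ / k) ^ k := by
    intro V1 V2 a1 a2 a3
    rw [hQd]
    exact hD.mq V1 V2 a1 a2 a3
  have hmp : ∀ h : ℝ, 0 ≤ h → ∀ V1 V2 : ℝ, T ≤ V1 → V1 ≤ V2 → V2 ≤ 2 * T →
      ∫ t in V1..V2, P h t ^ (2 * k) ≤ 4 * T * (CP * k * (1 + Real.log (1 + h * l))) ^ k := by
    intro h a0 V1 V2 a1 a2 a3
    rw [hPd]
    exact hD.mp h a0 V1 V2 a1 a2 a3
  clear hD
  have hw := W3_cont l hl0
  obtain ⟨w, hwd⟩ : ∃ w : ℝ, w = (4 * C / lam) ^ (2 * k) := ⟨_, rfl⟩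
  have hw0 : 0 ≤ w := by
    rw [hwd]
    positivity
  obtain ⟨g, hg⟩ : ∃ g : ℝ → ℝ → ℝ → ℝ, g = fun a h t => Q (t + a) ^ (2 * k) +
    Q (t + (a + h)) ^ (2 * k) + w * P h (t + a) ^ (2 * k) := ⟨_, rfl⟩
  have hg0 : ∀ a h t, 0 ≤ g a h t := by
    intro a h t
    have a1 := pow_nonneg (hQ0 (t + a)) (2 * k)
    have a2 := pow_nonneg (hQ0 (t + (a + h))) (2 * k)
    have a3 := mul_nonneg hw0 (pow_nonneg (hP0 h (t + a)) (2 * k))
    rw [hg]
    simp only
    linarith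
  have hgc : ∀ a h, Continuous (g a h) := by
    intro a h
    have c1 : Continuous fun t => Q (t + a) := hQc.comp (by fun_prop)
    have c2 : Continuous fun t => Q (t + (a + h)) := hQc.comp (by fun_prop)
    have c3 : Continuous fun t => P h (t + a) := (hPc h).comp (by fun_prop)
    rw [hg]
    exact ((c1.pow _).add (c2.pow _)).add (continuous_const.mul (c3.pow _))
  have ha1 : (0 : ℝ) ≤ 1 / L := by positivity
  have ha1' : 1 / L ≤ 1 := by rw [div_le_one hL0]; linarith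
  have ha2 : (0 : ℝ) ≤ 2 / L := by positivity
  have ha2' : 2 / L ≤ 1 := by rw [div_le_one hL0]; linarith
  -- a window with a large deviation
  have hwin : ∀ a h t : ℝ, 0 ≤ h → h ≤ h1 → -1 ≤ a → a ≤ 1 → T + 2 * L ≤ t →
      t ≤ 2 * T - 2 * L → lam / 2 ≤ |cnt T (t + a) h - h * L / (2 * Real.pi)| → 1 ≤ g a h t := by
    intro a h t hh0 hh1' ha ha' ht1 ht2 hd
    have e1 := hdev (t + a) h hh0 (hh1'.trans h130) (by linarith) (by linarith)
    have e2 := hvl h hh0 hh1'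
    have e3 : C * (1 + Real.log (1 + h * l)) ≤ lam / 8 :=
      (mul_le_mul_of_nonneg_left e2 (by linarith)).trans hCv
    have e4 := one_le_of (k := k) hC hlam0 (hQ0 (t + a)) (hQ0 (t + a + h)) (hP0 h (t + a)) hCk e3
      hd e1
    have e5 : (4 * C * P h (t + a) / lam) ^ (2 * k) = w * P h (t + a) ^ (2 * k) := by
      rw [hwd, ← mul_pow]
      congr 1
      ring
    rw [e5, add_assoc t a h] at e4
    rw [hg]
    exact e4
  have hfc : Continuous fun t => 8 * CM * k * (g (2 / L) h1 t + g (-(1 / L)) h2 t +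
      Q t ^ (2 * k)) :=
    continuous_const.mul (((hgc _ _).add (hgc _ _)).add (hQc.pow _))
  apply CTAux.count_int (by linarith : 1 ≤ L) N _ hV hfc
  · intro n hn
    exact ⟨(hN n hn).2.1, (hN n hn).2.2.1⟩
  · intro t ht1 ht2
    by_cases hne : (N.filter (fun n => |ord n - t| ≤ 1 / L)).Nonempty
    · obtain ⟨n, hn⟩ := hne
      rw [Finset.mem_filter] at hn
      obtain ⟨hn1, hn2, hn3, hn4⟩ := hN n hn.1
      have hcard : ((N.filter (fun n => |ord n - t| ≤ 1 / L)).card : ℝ) ≤ 4 * Mk T 1 t := by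
        apply CTAux.card_near hTone (by linarith)
        intro n' hn'
        rw [Finset.mem_filter] at hn'
        obtain ⟨b1, b2, b3, _⟩ := hN n' hn'.1
        exact ⟨b1, by linarith, by linarith, hn'.2⟩
      have hmono := CTAux.Mk_mono_k T t k hk hTone
      have hMk := hmk t (by linarith) (by linarith)
      have hgg : 1 ≤ g (2 / L) h1 t + g (-(1 / L)) h2 t := by
        have hnd := near_dev hTone hL hn1 hm3 (by linarith) hn2 hn3 hn4 hn.2
        rw [← hLd, ← hh1, ← hh2] at hnd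
        rcases hnd with hd | hd
        · have b1 := hwin (2 / L) h1 t h10 le_rfl (by linarith) ha2' ht1 ht2 hd
          have b2 := hg0 (-(1 / L)) h2 t
          linarith
        · have b1 := hwin (-(1 / L)) h2 t h20 h21 (by linarith) (by linarith) ht1 ht2 hd
          have b2 := hg0 (2 / L) h1 t
          linarith
      have e1 : 1 + Q t ≤ 2 * (g (2 / L) h1 t + g (-(1 / L)) h2 t + Q t ^ (2 * k)) := by
        have hp : 0 ≤ Q t ^ (2 * k) := pow_nonneg (hQ0 t) _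
        rcases le_total (Q t) 1 with h6 | h6
        · linarith
        · have h7 : Q t ≤ Q t ^ (2 * k) := le_self_pow₀ h6 (by omega)
          linarith
      calc ((N.filter (fun n => |ord n - t| ≤ 1 / L)).card : ℝ) ≤ 4 * Mk T 1 t := hcard
        _ ≤ 4 * (CM * k * (1 + Q t)) := by
            have := hmono.trans hMk
            linarith
        _ = 4 * CM * k * (1 + Q t) := by ring
        _ ≤ 4 * CM * k * (2 * (g (2 / L) h1 t + g (-(1 / L)) h2 t + Q t ^ (2 * k))) :=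
            mul_le_mul_of_nonneg_left e1 (by positivity)
        _ = _ := by ring
    · rw [Finset.not_nonempty_iff_eq_empty] at hne
      rw [hne]
      simp only [Finset.card_empty, Nat.cast_zero]
      have b1 := hg0 (2 / L) h1 t
      have b2 := hg0 (-(1 / L)) h2 t
      have b3 := pow_nonneg (hQ0 t) (2 * k)
      exact mul_nonneg (by positivity) (by linarith)
  · -- the integral
    rw [intervalIntegral.integral_const_mul]
    apply mul_le_mul_of_nonneg_left _ (by positivity)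
    rw [hg]
    have hCQb : (CQ / k) ^ k ≤ (C5 * q / lam) ^ k := by
      apply pow_le_pow_left₀ (by positivity)
      rw [div_le_div_iff₀ hk0 hlam0]
      have e1 : CQ * lam ≤ CQ * (2 * A0 * k) := mul_le_mul_of_nonneg_left hkl hCQ.le
      have e2 : CQ * (2 * A0 * k) * 1 ≤ CQ * (2 * A0 * k) * (2 * q) :=
        mul_le_mul_of_nonneg_left hq1 (by positivity)
      have e3 : CQ * (2 * A0 * k) * (2 * q) = 4 * A0 * CQ * (q * k) := by ring
      have e4 : 4 * A0 * CQ * (q * k) ≤ C5 * (q * k) := by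
        apply mul_le_mul_of_nonneg_right _ (by positivity)
        rw [hC5]
        have : 0 ≤ 16 * C ^ 2 * CP * C4 := by positivity
        linarith
      calc CQ * lam ≤ C5 * (q * k) := by linarith
        _ = _ := by ring
    have hPb : ∀ h : ℝ, 0 ≤ h → h ≤ h1 → ∀ V1 V2 : ℝ, T ≤ V1 → V1 ≤ V2 → V2 ≤ 2 * T →
        w * ∫ t in V1..V2, P h t ^ (2 * k) ≤ 4 * T * (C5 * q / lam) ^ k := by
      intro h hh0 hhh V1 V2 a1 a2 a3
      have e2 := hmp h hh0 V1 V2 a1 a2 a3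
      have e3 := hvl h hh0 hhh
      have hx0 : 0 ≤ h * l := by positivity
      have hlg : 0 ≤ Real.log (1 + h * l) := Real.log_nonneg (by linarith)
      have e4 := moment_factor (C := C) (CP := CP) (C4 := C4) (C5 := C5) (k := k)
        (v := 1 + Real.log (1 + h * l)) (q := q) (lam := lam) hC hCP hC41 hk0 hklam e3
        (by linarith) hq0 hlam0 (by
          rw [hC5]
          have : 0 ≤ 4 * A0 * CQ := by positivity
          linarith)
      calc w * ∫ t in V1..V2, P h t ^ (2 * k)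
          ≤ w * (4 * T * (CP * k * (1 + Real.log (1 + h * l))) ^ k) :=
            mul_le_mul_of_nonneg_left e2 hw0
        _ = 4 * T * ((4 * C / lam) ^ 2 * (CP * k * (1 + Real.log (1 + h * l)))) ^ k := by
            rw [hwd, pow_mul, mul_pow ((4 * C / lam) ^ 2)]
            ring
        _ ≤ 4 * T * (C5 * q / lam) ^ k := by
            apply mul_le_mul_of_nonneg_left _ (by positivity)
            exact pow_le_pow_left₀ (by positivity) e4 k
    exact int_bound (k := k) hQc (hPc h1) (hPc h2) hL hLT (by linarith) ha2' (by linarith)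
      (by linarith) h10 h130 h20 (h21.trans h130)
      (fun V1 V2 a1 a2 a3 => (hmq V1 V2 a1 a2 a3).trans
        (mul_le_mul_of_nonneg_left hCQb (by positivity)))
      (hPb h1 h10 le_rfl) (hPb h2 h20 h21)

theorem block (hRH : RHs) : ∃ A c1 T0 : ℝ, 1 ≤ A ∧ 0 < c1 ∧ 100 ≤ T0 ∧ ∀ T : ℝ, T0 ≤ T →
    ∀ m : ℕ, 1 ≤ m → (m : ℝ) ≤ 3 * Real.log T → ∀ lam : ℝ, A * Real.log (m + 1) ≤ lam →
    lam ≤ c1 * Real.log T → ∀ N : Finset ℕ,
    (∀ n ∈ N, 1 ≤ n ∧ T + 3 * Real.log T ≤ ord n ∧ ord n ≤ 2 * T - 3 * Real.log T ∧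
      lam ≤ |(ord (n + m) - ord n) * Real.log T / (2 * Real.pi) - m|) →
    (N.card : ℝ) ≤ T * Real.log T * (A * Real.log (m + 1) / lam) ^ (lam / A) := by
  obtain ⟨C, c0, Td, hC, hc0, hTd, hdev⟩ := dev_bound hRH 30 (by norm_num)
  obtain ⟨CM, TM, hCM, hTM, hM⟩ := Mk_bound hRH (1 / 4) (by norm_num) (by norm_num)
  obtain ⟨CQ, TQ, hCQ, hTQ, hQ⟩ := CTAux.leb_mom (1 / 4) (by norm_num) (by norm_num)
  obtain ⟨CP, TP, hCP, hTP, hPm⟩ := mom_PS
  obtain ⟨TL, hTL, hlog⟩ := CTAux.log_ev 100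
  obtain ⟨A0, hA0⟩ : ∃ A0 : ℝ, A0 = 24 * C := ⟨_, rfl⟩
  have hA01 : 24 ≤ A0 := by linarith
  obtain ⟨C4, hC4⟩ : ∃ C4 : ℝ, C4 = 2 * (1 + Real.log (3 + 3 * A0)) + 1 := ⟨_, rfl⟩
  have hlA0 : 0 ≤ Real.log (3 + 3 * A0) := Real.log_nonneg (by linarith)
  have hC41 : 1 ≤ C4 := by linarith
  obtain ⟨C5, hC5⟩ : ∃ C5 : ℝ, C5 = 16 * C ^ 2 * CP * C4 + 4 * A0 * CQ := ⟨_, rfl⟩
  have hC50 : 0 < C5 := by rw [hC5]; positivity
  obtain ⟨C6, hC6⟩ : ∃ C6 : ℝ, C6 = 304 * (max CM 1) * C5 := ⟨_, rfl⟩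
  have hCM1 : 1 ≤ max CM 1 := le_max_right _ _
  have hC60 : 0 < C6 := by rw [hC6]; positivity
  have hCC4 : 0 ≤ 8 * C * C4 := by positivity
  obtain ⟨A, hA⟩ : ∃ A : ℝ, A = 2 * A0 + 8 * C * C4 + C6 := ⟨_, rfl⟩
  have hA1 : 48 ≤ A := by linarith
  refine ⟨A, min 1 c0, max TL (max (max Td TM) (max TQ TP)), by linarith, by positivity,
    hTL.trans (le_max_left _ _), ?_⟩
  intro T hT m hm hm3 lam hlam hlamc N hN
  have hT1 : TL ≤ T := (le_max_left _ _).trans hT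
  have hT' : max (max Td TM) (max TQ TP) ≤ T := (le_max_right _ _).trans hT
  have hT2 : Td ≤ T := ((le_max_left _ _).trans (le_max_left _ _)).trans hT'
  have hT3 : TM ≤ T := ((le_max_right _ _).trans (le_max_left _ _)).trans hT'
  have hT4 : TQ ≤ T := ((le_max_left _ _).trans (le_max_right _ _)).trans hT'
  have hT5 : TP ≤ T := ((le_max_right _ _).trans (le_max_right _ _)).trans hT'
  have hT100 : 100 ≤ T := hTL.trans hT1
  obtain ⟨hL100, hLT⟩ := hlog T hT1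
  have hL0 : 0 < Real.log T := by linarith
  have hq1 : 1 ≤ 2 * Real.log (m + 1) := log_add_one hm
  obtain ⟨q, hq⟩ : ∃ q : ℝ, q = Real.log (m + 1) := ⟨_, rfl⟩
  rw [← hq] at hq1 hlam ⊢
  have hq0 : 0 < q := by linarith
  have hAq1 : 2 * A0 * q ≤ A * q := mul_le_mul_of_nonneg_right (by linarith) hq0.le
  have hAq2 : 8 * C * C4 * q ≤ A * q := mul_le_mul_of_nonneg_right (by linarith) hq0.le
  have hlamA0 : A0 ≤ lam := by
    have : A0 * 1 ≤ A0 * (2 * q) := mul_le_mul_of_nonneg_left hq1 (by linarith)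
    linarith
  have hlam0 : 0 < lam := by linarith
  have hlamL : lam ≤ Real.log T := by
    have : min 1 c0 * Real.log T ≤ 1 * Real.log T :=
      mul_le_mul_of_nonneg_right (min_le_left _ _) hL0.le
    linarith
  have hlamcL : lam ≤ c0 * Real.log T := by
    have : min 1 c0 * Real.log T ≤ c0 * Real.log T :=
      mul_le_mul_of_nonneg_right (min_le_right _ _) hL0.le
    linarith
  obtain ⟨k, hk⟩ : ∃ k : ℕ, k = ⌊lam / A0⌋₊ := ⟨_, rfl⟩
  have hk1 : (k : ℝ) ≤ lam / A0 := by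
    rw [hk]
    exact Nat.floor_le (by positivity)
  have hk2 : lam / A0 < k + 1 := by
    rw [hk]
    exact Nat.lt_floor_add_one _
  have hkone : 1 ≤ lam / A0 := by rw [le_div_iff₀ (by linarith)]; linarith
  have hk1' : 1 ≤ k := by
    rw [hk, Nat.one_le_floor_iff]
    exact hkone
  have hk1r : (1 : ℝ) ≤ k := by exact_mod_cast hk1'
  have hkl : lam ≤ 2 * A0 * k := by
    have h1 : lam / A0 ≤ 2 * k := by linarith
    rw [div_le_iff₀ (by linarith)] at h1
    linarith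
  have hku : A0 * k ≤ lam := by
    rw [le_div_iff₀ (by linarith)] at hk1
    linarith
  have hkc : (k : ℝ) ≤ c0 * Real.log T := by
    have : (k : ℝ) ≤ A0 * k := le_mul_of_one_le_left (by linarith) (by linarith)
    linarith
  have hl0 : 0 < ell (1 / 4) T k := MkB.ell_pos (κ := 1 / 4) (by norm_num) (by linarith) hk1'
  have hw := W3_cont _ hl0
  have hD : Dat C CM CQ CP T k :=
    { dev := fun t h a1 a2 a3 a4 => hdev T hT2 t h a1 a2 a3 a4 k hk1' hkc
      mkb := fun t a1 a2 => hM T hT3 t a1 a2 k hk1'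
      mq := fun V1 V2 a1 a2 a3 => hQ T hT4 k hk1' V1 V2 a1 a2 a3
      mp := fun h a0 V1 V2 a1 a2 a3 => hPm T hT5 k h hk1' a0 _ (fun u _ => hw.2 u) V1 V2 a1 a2 a3 }
  have hcount := block_aux hD hC hCM hCQ hCP hT100 hL100 hLT hA0 hC4 hC5 hm hm3 hk1' hkl hku hlamL
    (by rw [← hq]; linarith) N hN
  rw [← hq] at hcount
  exact final_arith (by linarith) hL0 hCM hC50 hC6 hA01 (by linarith) (by linarith) hq0 hlam0 hlam
    hk1' hkl hcount

end Rig
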