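import Pool.Agent.W197.Rig.C

/-! # The prime side integrated over a window is a short prime sum -/

open Complex Filter Topology Set MeasureTheory

namespace Rig

open SG (phi hh nn dd dl)
open SP LG

theorem gg_hasSum (T t h : ℝ) (hT : 1 ≤ T) (W : ℝ → ℂ) (K : ℝ)
    (hW : ∀ u ∈ Set.Icc 0 (Real.log T), ‖W u‖ ≤ K) :
    HasSum (gg T t h W) (∫ s in t..(t + h), ps T s W) := by
  have hs : Summable (fun n : ℕ =>
      (K * Real.exp (Real.log T ^ 2 / 2) * Real.log T) * ppG (1 / 4) n) :=
    (ppG_summable _ (by norm_num)).mul_left _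
  apply intervalIntegral.hasSum_integral_of_dominated_convergence
    (bound := fun n _ => (K * Real.exp (Real.log T ^ 2 / 2) * Real.log T) * ppG (1 / 4) n)
  · intro n
    exact (ppf_cont T W n).aestronglyMeasurable
  · intro n
    exact Eventually.of_forall fun u _ => ppf_bound T u hT W K hW n
  · exact Eventually.of_forall fun u _ => hs
  · exact intervalIntegrable_const
  · refine Eventually.of_forall fun u _ => ?_
    exact (ppf_summable T u hT W K hW).hasSum

theorem gg_inner (T t h l : ℝ) (hT : 1 ≤ T) (hh : 0 ≤ h) (W : ℝ → ℂ)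
    (hW : ∀ u ∈ Set.Icc 0 (Real.log T), ‖W u‖ ≤ 2) (hl : ∀ u : ℝ, l ≤ u → W u = 0)
    (p : ℕ) (hp : p.Prime) :
    ‖∑' k : ℕ, gg T t h W (p ^ (k + 2))‖ ≤ 8 *
      ((if p ∈ PP l then min 1 (h * Real.log p) / p else 0) + h * ppG (1 / 2) p) := by
  have hL : 0 ≤ Real.log T := Real.log_nonneg hT
  have hp2 : (2 : ℝ) ≤ p := by exact_mod_cast hp.two_le
  have hp0 : (0 : ℝ) < p := by linarith
  have hlp : 0 < Real.log p := Real.log_pos (by linarith)
  set r : ℝ := (p : ℝ) ^ (-(1 / 2) : ℝ) with hr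
  have hr0 : 0 < r := Real.rpow_pos_of_pos hp0 _
  have hr2 : r ^ 2 = 1 / p := by
    rw [hr, ← Real.rpow_natCast, ← Real.rpow_mul hp0.le]
    norm_num
    rw [Real.rpow_neg_one]
  have hr34 : r ≤ 3 / 4 := by
    have h1 : r ^ 2 ≤ (3 / 4) ^ 2 := by
      rw [hr2, div_le_iff₀ hp0]
      nlinarith
    exact le_of_sq_le_sq h1 (by norm_num)
  have hr1 : r < 1 := by linarith
  set mm : ℝ := min 1 (h * Real.log p) with hmm
  have hmm0 : 0 ≤ mm := le_min zero_le_one (by positivity)
  set bb : ℝ := 2 * ((if p ∈ PP l then mm else 0) +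
    h * Real.log p * Real.exp (-(1 / 2) * (Real.log p) ^ 2)) with hbb
  have hbt : ∀ k : ℕ, mm * ‖bt T W ((p ^ (k + 2) : ℕ) : ℝ)‖ ≤ bb := by
    intro k
    rw [hbb]
    by_cases hpl : p ∈ PP l
    · rw [if_pos hpl]
      have h1 := bt_le T hT W 2 hW ((p ^ (k + 2) : ℕ) : ℝ)
      have h2 := mul_le_mul_of_nonneg_left h1 hmm0
      have : 0 ≤ h * Real.log p * Real.exp (-(1 / 2) * (Real.log p) ^ 2) := by positivity
      linarith
    · rw [if_neg hpl, zero_add]
      have hlt : l < Real.log p := by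
        by_contra h1
        exact hpl (mem_PP.2 ⟨hp, not_lt.1 h1⟩)
      have hlogk : Real.log ((p ^ (k + 2) : ℕ) : ℝ) = (k + 2) * Real.log p := by
        push_cast
        rw [Real.log_pow]
        push_cast
        ring
      have hge : Real.log p ≤ Real.log ((p ^ (k + 2) : ℕ) : ℝ) - l := by
        rw [hlogk]
        have : 0 ≤ (k : ℝ) * Real.log p := by positivity
        nlinarith
      have h1 := bt_far' T hT W 2 l hW hl ((p ^ (k + 2) : ℕ) : ℝ) (by linarith)
      have h2 : Real.exp (-(Real.log ((p ^ (k + 2) : ℕ) : ℝ) - l) ^ 2 / 2) ≤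
          Real.exp (-(1 / 2) * (Real.log p) ^ 2) := by
        apply Real.exp_le_exp.2
        nlinarith
      have h3 : mm ≤ h * Real.log p := min_le_right _ _
      calc mm * ‖bt T W ((p ^ (k + 2) : ℕ) : ℝ)‖ ≤ (h * Real.log p) *
            (2 * Real.exp (-(1 / 2) * (Real.log p) ^ 2)) := by
            apply mul_le_mul h3 (h1.trans _) (norm_nonneg _) (by positivity)
            exact mul_le_mul_of_nonneg_left h2 (by norm_num)
        _ = _ := by ring
  have hbb0 : 0 ≤ bb := (mul_nonneg hmm0 (norm_nonneg _)).trans (hbt 0)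
  have hterm : ∀ k : ℕ, ‖gg T t h W (p ^ (k + 2))‖ ≤ (r ^ 2 * bb) * r ^ k := by
    intro k
    have hpos : 2 ≤ p ^ (k + 2) := by
      calc 2 ≤ p := hp.two_le
        _ = p ^ 1 := (pow_one p).symm
        _ ≤ p ^ (k + 2) := Nat.pow_le_pow_right hp.pos (by omega)
    refine (gg_norm T t h hh W _ hpos).trans ?_
    rw [ArithmeticFunction.vonMangoldt_apply_pow (by omega),
      ArithmeticFunction.vonMangoldt_apply_prime hp]
    have h1 : ((p ^ (k + 2) : ℕ) : ℝ) ^ (-(1 / 2) : ℝ) = r ^ (k + 2) := by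
      push_cast
      rw [hr, ← Real.rpow_natCast, ← Real.rpow_natCast, ← Real.rpow_mul hp0.le,
        ← Real.rpow_mul hp0.le]
      ring_nf
    have hlogk : Real.log ((p ^ (k + 2) : ℕ) : ℝ) = (k + 2) * Real.log p := by
      push_cast
      rw [Real.log_pow]
      push_cast
      ring
    rw [h1, hlogk]
    have hk2 : (0 : ℝ) < (k + 2) * Real.log p := by positivity
    have h2 : Real.log p * (min 2 (h * ((k + 2) * Real.log p)) / ((k + 2) * Real.log p)) ≤ mm := by
      rw [mul_div_assoc', div_le_iff₀ hk2, hmm]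
      rcases le_total 1 (h * Real.log p) with h3 | h3
      · rw [min_eq_left h3]
        calc Real.log p * min 2 (h * ((k + 2) * Real.log p)) ≤ Real.log p * 2 :=
              mul_le_mul_of_nonneg_left (min_le_left _ _) hlp.le
          _ ≤ 1 * ((k + 2) * Real.log p) := by
              have : (0 : ℝ) ≤ k * Real.log p := by positivity
              linarith
      · rw [min_eq_right h3]
        calc Real.log p * min 2 (h * ((k + 2) * Real.log p)) ≤
              Real.log p * (h * ((k + 2) * Real.log p)) :=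
              mul_le_mul_of_nonneg_left (min_le_right _ _) hlp.le
          _ = _ := by ring
    calc Real.log p * (r ^ (k + 2) * (min 2 (h * ((k + 2) * Real.log p)) /
          ((k + 2) * Real.log p))) * ‖bt T W ((p ^ (k + 2) : ℕ) : ℝ)‖
        = r ^ (k + 2) * ((Real.log p * (min 2 (h * ((k + 2) * Real.log p)) /
          ((k + 2) * Real.log p))) * ‖bt T W ((p ^ (k + 2) : ℕ) : ℝ)‖) := by ring
      _ ≤ r ^ (k + 2) * (mm * ‖bt T W ((p ^ (k + 2) : ℕ) : ℝ)‖) := by
          apply mul_le_mul_of_nonneg_left _ (by positivity)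
          exact mul_le_mul_of_nonneg_right h2 (norm_nonneg _)
      _ ≤ r ^ (k + 2) * bb := mul_le_mul_of_nonneg_left (hbt k) (by positivity)
      _ = _ := by ring
  have hgeo : HasSum (fun k : ℕ => (r ^ 2 * bb) * r ^ k) ((r ^ 2 * bb) * (1 - r)⁻¹) :=
    (hasSum_geometric_of_lt_one hr0.le hr1).mul_left _
  have h1 := tsum_of_norm_bounded hgeo hterm
  refine h1.trans ?_
  have h4 : (1 - r)⁻¹ ≤ 4 := by
    rw [inv_le_comm₀ (by linarith) (by norm_num)]
    linarith
  calc (r ^ 2 * bb) * (1 - r)⁻¹ ≤ (r ^ 2 * bb) * 4 :=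
        mul_le_mul_of_nonneg_left h4 (by positivity)
    _ = 8 * ((if p ∈ PP l then mm / p else 0) +
        h * (Real.log p * (1 / p) * Real.exp (-(1 / 2) * (Real.log p) ^ 2))) := by
        rw [hbb, hr2]
        split_ifs <;> ring
    _ ≤ _ := by
        apply mul_le_mul_of_nonneg_left _ (by norm_num)
        apply add_le_add_right
        apply mul_le_mul_of_nonneg_left _ hh
        unfold ppG
        apply mul_le_mul_of_nonneg_right _ (Real.exp_pos _).le
        apply mul_le_mul_of_nonneg_left _ hlp.le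
        rw [← hr2, ← hr]
        nlinarith

/-- the integrated prime side is a short prime sum -/
theorem ps_main : ∃ C : ℝ, 0 < C ∧ ∀ T : ℝ, 1 ≤ T → ∀ t h l : ℝ, 0 ≤ h → 0 < l →
    ∀ W : ℝ → ℂ, (∀ u ∈ Set.Icc 0 (Real.log T), ‖W u‖ ≤ 2) → (∀ u : ℝ, l ≤ u → W u = 0) →
    ‖(∫ s in t..(t + h), ps T s W) - PSum T h l W t‖ ≤ C * (1 + h) * (1 + Real.log (1 + h * l)) := by
  refine ⟨2 * (∑' n, ppG (1 / 8) n) + 8 * (60 + ∑' n, ppG (1 / 2) n), ?_, ?_⟩
  · have h1 : 0 ≤ ∑' n, ppG (1 / 8) n := tsum_nonneg (ppG_nonneg _)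
    have h2 : 0 ≤ ∑' n, ppG (1 / 2) n := tsum_nonneg (ppG_nonneg _)
    positivity
  intro T hT t h l hh hl0 W hW hl
  have hL : 0 ≤ Real.log T := Real.log_nonneg hT
  have hHS := gg_hasSum T t h hT W 2 hW
  have hsum := hHS.summable
  have hsupp : Function.support (gg T t h W) ⊆ {n | IsPrimePow n} := by
    intro n hn
    by_contra hcon
    apply hn
    have h0 : ArithmeticFunction.vonMangoldt n = 0 := by
      rw [ArithmeticFunction.vonMangoldt_eq_zero_iff]
      exact hcon
    unfold gg ppf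
    rw [h0]
    simp
  have hps : (∫ s in t..(t + h), ps T s W) = (∑' p : Nat.Primes, gg T t h W p) +
      ∑' (p : Nat.Primes) (k : ℕ), gg T t h W (p ^ (k + 2)) := by
    rw [← hHS.tsum_eq]
    exact tsum_eq_tsum_primes_add_tsum_primes_of_support_subset_prime_powers hsum hsupp
  set S : Finset ℕ := PP (2 * l) with hS
  have hQ : PSum T h l W t = ∑ p ∈ S, gg T t h W p := by
    unfold PSum
    apply Finset.sum_congr rfl
    intro p hp
    rw [gg_prime T t h W p (mem_PP.1 hp).1]
  -- primes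
  set g : ℕ → ℂ := Set.indicator {p : ℕ | p.Prime} (gg T t h W) with hg
  have hgs : Summable g := hsum.indicator _
  have hA1 : (∑' p : Nat.Primes, gg T t h W p) = ∑' n, g n :=
    tsum_subtype {p : ℕ | p.Prime} (gg T t h W)
  have hA2 : ∑ p ∈ S, gg T t h W p = ∑ p ∈ S, g p := by
    apply Finset.sum_congr rfl
    intro p hp
    rw [hg, Set.indicator_of_mem]
    exact (mem_PP.1 hp).1
  have hA3 : ∑ p ∈ S, g p = ∑' n, (if n ∈ S then g n else 0) := by
    rw [tsum_eq_sum (s := S)]
    · apply Finset.sum_congr rfl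
      intro p hp
      rw [if_pos hp]
    · intro n hn
      rw [if_neg hn]
  have hs2 : Summable (fun n => if n ∈ S then g n else 0) := by
    apply summable_of_ne_finset_zero (s := S)
    intro n hn
    rw [if_neg hn]
  have hA : ‖(∑' p : Nat.Primes, gg T t h W p) - ∑ p ∈ S, gg T t h W p‖ ≤
      2 * h * ∑' n, ppG (1 / 8) n := by
    rw [hA1, hA2, hA3, ← hgs.tsum_sub hs2]
    apply tsum_of_norm_bounded ((ppG_summable (1 / 8) (by norm_num)).hasSum.mul_left _)
    intro n
    have hG0 := ppG_nonneg (1 / 8) n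
    by_cases hnS : n ∈ S
    · rw [if_pos hnS, sub_self, norm_zero]
      positivity
    · rw [if_neg hnS, sub_zero]
      by_cases hn : n.Prime
      · rw [hg, Set.indicator_of_mem (show n ∈ {p : ℕ | p.Prime} from hn)]
        have hlogn : 2 * l < Real.log n := by
          by_contra h1
          exact hnS (mem_PP.2 ⟨hn, not_lt.1 h1⟩)
        have hlp : 0 < Real.log n := by linarith
        refine (gg_norm T t h hh W n hn.two_le).trans ?_
        have h1 : min 2 (h * Real.log n) / Real.log n ≤ h := by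
          rw [div_le_iff₀ hlp]
          exact min_le_right _ _
        have h2 := bt_far' T hT W 2 l hW hl n (by linarith)
        have h3 : Real.exp (-(Real.log n - l) ^ 2 / 2) ≤
            Real.exp (-(1 / 8) * (Real.log n) ^ 2) := by
          apply Real.exp_le_exp.2
          nlinarith
        have h4 : ‖bt T W n‖ ≤ 2 * Real.exp (-(1 / 8) * (Real.log n) ^ 2) :=
          h2.trans (mul_le_mul_of_nonneg_left h3 (by norm_num))
        rw [ArithmeticFunction.vonMangoldt_apply_prime hn]
        calc Real.log n * ((n : ℝ) ^ (-(1 / 2) : ℝ) * (min 2 (h * Real.log n) / Real.log n)) *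
              ‖bt T W n‖ ≤ Real.log n * ((n : ℝ) ^ (-(1 / 2) : ℝ) * h) *
              (2 * Real.exp (-(1 / 8) * (Real.log n) ^ 2)) := by
              apply mul_le_mul _ h4 (norm_nonneg _) (by positivity)
              apply mul_le_mul_of_nonneg_left _ hlp.le
              exact mul_le_mul_of_nonneg_left h1 (by positivity)
          _ = _ := by
              unfold ppG
              ring
      · rw [hg, Set.indicator_of_notMem (show n ∉ {p : ℕ | p.Prime} from hn), norm_zero]
        positivity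
  -- higher powers
  set B : ℕ → ℝ := fun n => 8 * ((if n ∈ PP l then min 1 (h * Real.log n) / n else 0) +
    h * ppG (1 / 2) n) with hB
  have hB0 : ∀ n, 0 ≤ B n := by
    intro n
    have h1 := ppG_nonneg (1 / 2) n
    have h2 : 0 ≤ Real.log n := Real.log_natCast_nonneg n
    have h4 : 0 ≤ min 1 (h * Real.log n) := le_min zero_le_one (by positivity)
    have h3 : (0 : ℝ) ≤ (if n ∈ PP l then min 1 (h * Real.log n) / n else 0) := by
      split_ifs <;> positivity
    rw [hB]
    positivity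
  have hs3 : HasSum (fun n : ℕ => if n ∈ PP l then min 1 (h * Real.log n) / (n : ℝ) else 0)
      (VV h l) := by
    have h1 : VV h l = ∑ n ∈ PP l,
          (if n ∈ PP l then min 1 (h * Real.log n) / (n : ℝ) else 0) := by
      unfold VV
      apply Finset.sum_congr rfl
      intro n hn
      rw [if_pos hn]
    rw [h1]
    apply hasSum_sum_of_ne_finset_zero
    intro n hn
    rw [if_neg hn]
  have hBs : HasSum B (8 * (VV h l + h * ∑' n, ppG (1 / 2) n)) :=
    (hs3.add ((ppG_summable (1 / 2) (by norm_num)).hasSum.mul_left _)).mul_left _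
  have hC : ‖∑' (p : Nat.Primes) (k : ℕ), gg T t h W (p ^ (k + 2))‖ ≤
      8 * (VV h l + h * ∑' n, ppG (1 / 2) n) := by
    have hBsub : Summable (fun p : Nat.Primes => B p) := hBs.summable.subtype _
    have h1 : ‖∑' (p : Nat.Primes) (k : ℕ), gg T t h W (p ^ (k + 2))‖ ≤
        ∑' p : Nat.Primes, B p := by
      apply tsum_of_norm_bounded hBsub.hasSum
      intro p
      exact gg_inner T t h l hT hh W hW hl p p.2
    refine h1.trans ?_
    rw [← hBs.tsum_eq]
    exact hBs.summable.tsum_subtype_le B {p : ℕ | p.Prime} hB0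
  have hV := VV_bound h l hh hl0.le
  have hlog : 0 ≤ Real.log (1 + h * l) := Real.log_nonneg (by
    have : 0 ≤ h * l := by positivity
    linarith)
  set lg := Real.log (1 + h * l) with hlg
  have hG1 : 0 ≤ ∑' n, ppG (1 / 8) n := tsum_nonneg (ppG_nonneg _)
  have hG2 : 0 ≤ ∑' n, ppG (1 / 2) n := tsum_nonneg (ppG_nonneg _)
  rw [hps, hQ]
  have hfin : ‖(∑' p : Nat.Primes, gg T t h W p) +
      (∑' (p : Nat.Primes) (k : ℕ), gg T t h W (p ^ (k + 2))) - ∑ p ∈ S, gg T t h W p‖ ≤
      2 * h * (∑' n, ppG (1 / 8) n) + 8 * (60 * (1 + lg) + h * ∑' n, ppG (1 / 2) n) := by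
    calc ‖(∑' p : Nat.Primes, gg T t h W p) +
        (∑' (p : Nat.Primes) (k : ℕ), gg T t h W (p ^ (k + 2))) - ∑ p ∈ S, gg T t h W p‖
        = ‖((∑' p : Nat.Primes, gg T t h W p) - ∑ p ∈ S, gg T t h W p) +
        ∑' (p : Nat.Primes) (k : ℕ), gg T t h W (p ^ (k + 2))‖ := by
          congr 1
          ring
      _ ≤ _ := by
          refine (norm_add_le _ _).trans (add_le_add hA (hC.trans ?_))
          apply mul_le_mul_of_nonneg_left _ (by norm_num)
          linarith
  refine hfin.trans ?_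
  have a1 : h ≤ (1 + h) * (1 + lg) := by nlinarith
  have a2 : 1 + lg ≤ (1 + h) * (1 + lg) := by nlinarith
  have b1 := mul_le_mul_of_nonneg_left a1 hG1
  have b2 := mul_le_mul_of_nonneg_left a1 hG2
  calc _ = 2 * ((∑' n, ppG (1 / 8) n) * h) + 8 * (60 * (1 + lg) + (∑' n, ppG (1 / 2) n) * h) := by
        ring
    _ ≤ 2 * ((∑' n, ppG (1 / 8) n) * ((1 + h) * (1 + lg))) + 8 * (60 * ((1 + h) * (1 + lg)) +
        (∑' n, ppG (1 / 2) n) * ((1 + h) * (1 + lg))) := by linarith
    _ = _ := by ring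

end Rig
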