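import Pool.Agent.W197.Rig.B

/-! # The prime side integrated over a window -/

open Complex Filter Topology Set MeasureTheory

namespace Rig

open SG (phi hh nn dd dl)
open SP LG

/-! ### sums over primes -/

/-- primes up to `e^y` -/
noncomputable def PP (y : ℝ) : Finset ℕ := (Finset.Icc 1 ⌊Real.exp y⌋₊).filter Nat.Prime

theorem mem_PP {y : ℝ} {p : ℕ} : p ∈ PP y ↔ p.Prime ∧ Real.log p ≤ y := by
  unfold PP
  rw [Finset.mem_filter, Finset.mem_Icc]
  constructor
  · rintro ⟨⟨h1, h2⟩, h3⟩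
    refine ⟨h3, ?_⟩
    have h4 : (p : ℝ) ≤ Real.exp y := (Nat.le_floor_iff (Real.exp_pos _).le).1 h2
    rw [Real.log_le_iff_le_exp (by exact_mod_cast h3.pos)]
    exact h4
  · rintro ⟨h3, h4⟩
    rw [Real.log_le_iff_le_exp (by exact_mod_cast h3.pos)] at h4
    exact ⟨⟨h3.one_lt.le, (Nat.le_floor_iff (Real.exp_pos _).le).2 h4⟩, h3⟩

theorem mert (y : ℝ) (hy : 0 ≤ y) : ∑ p ∈ PP y, Real.log p / p ≤ 10 * y := by
  by_cases h2 : y < Real.log 2
  · have : PP y = ∅ := by
      rw [Finset.eq_empty_iff_forall_notMem]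
      intro p hp
      rw [mem_PP] at hp
      have h3 : Real.log 2 ≤ Real.log p := Real.log_le_log (by norm_num)
        (by exact_mod_cast hp.1.two_le)
      linarith [hp.2]
    rw [this, Finset.sum_empty]
    positivity
  · push Not at h2
    have h3 := Real.log_two_gt_d9
    have h4 : 1 ≤ ⌊Real.exp y⌋₊ := by
      rw [Nat.one_le_iff_ne_zero]
      intro h
      rw [Nat.floor_eq_zero] at h
      have := Real.one_le_exp hy
      linarith
    have h5 := H370.nt_mertens_upper ⌊Real.exp y⌋₊ h4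
    have h6 : Real.log ⌊Real.exp y⌋₊ ≤ y := by
      rw [Real.log_le_iff_le_exp (by exact_mod_cast h4)]
      exact Nat.floor_le (Real.exp_pos _).le
    calc ∑ p ∈ PP y, Real.log p / p ≤
        ∑ d ∈ Finset.Icc 1 ⌊Real.exp y⌋₊, ArithmeticFunction.vonMangoldt d / d := by
          calc _ = ∑ p ∈ PP y, ArithmeticFunction.vonMangoldt p / p := by
                refine Finset.sum_congr rfl fun p hp => ?_
                rw [ArithmeticFunction.vonMangoldt_apply_prime (mem_PP.1 hp).1]
            _ ≤ _ := Finset.sum_le_sum_of_subset_of_nonneg (Finset.filter_subset _ _)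
                  (fun i _ _ => div_nonneg ArithmeticFunction.vonMangoldt_nonneg (Nat.cast_nonneg _))
      _ ≤ Real.log ⌊Real.exp y⌋₊ + 6 := h5
      _ ≤ 10 * y := by linarith

/-- `∑ min(1, h log p)/p` -/
noncomputable def VV (h y : ℝ) : ℝ := ∑ p ∈ PP y, min 1 (h * Real.log p) / p

theorem VV_step (n : ℕ) : ∀ h y : ℝ, 0 ≤ h → 0 ≤ y → h * y ≤ 2 ^ n →
    VV h y ≤ 10 * (1 + 2 * n) := by
  induction n with
  | zero =>
    intro h y hh hy hhy
    rw [pow_zero] at hhy
    have h1 : VV h y ≤ h * ∑ p ∈ PP y, Real.log p / p := by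
      unfold VV
      rw [Finset.mul_sum]
      apply Finset.sum_le_sum
      intro p hp
      have hp0 : (0 : ℝ) < p := by exact_mod_cast (mem_PP.1 hp).1.pos
      rw [mul_div_assoc']
      exact div_le_div_of_nonneg_right (min_le_right _ _) hp0.le
    have h2 := mul_le_mul_of_nonneg_left (mert y hy) hh
    have h3 : h * (10 * y) = 10 * (h * y) := by ring
    push_cast
    linarith
  | succ n ih =>
    intro h y hh hy hhy
    rcases eq_or_lt_of_le hy with h0 | h0
    · have h1 := ih h y hh hy (by rw [← h0]; simp)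
      push_cast
      linarith
    have h1 := ih h (y / 2) hh (by linarith) (by rw [pow_succ] at hhy; linarith)
    have h2 : VV h y ≤ VV h (y / 2) + 2 / y * ∑ p ∈ PP y, Real.log p / p := by
      unfold VV
      have hsub : PP (y / 2) ⊆ PP y := by
        intro p hp
        rw [mem_PP] at hp ⊢
        exact ⟨hp.1, by linarith [hp.2]⟩
      rw [← Finset.sum_sdiff hsub, add_comm]
      apply add_le_add_right
      rw [Finset.mul_sum]
      calc ∑ p ∈ PP y \ PP (y / 2), min 1 (h * Real.log p) / (p : ℝ)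
          ≤ ∑ p ∈ PP y \ PP (y / 2), 2 / y * (Real.log p / p) := by
            apply Finset.sum_le_sum
            intro p hp
            rw [Finset.mem_sdiff, mem_PP, mem_PP, not_and, not_le] at hp
            have hp0 : (0 : ℝ) < p := by exact_mod_cast hp.1.1.pos
            have h3 := hp.2 hp.1.1
            rw [mul_div_assoc', div_le_div_iff_of_pos_right hp0]
            refine (min_le_left _ _).trans ?_
            rw [div_mul_eq_mul_div, le_div_iff₀ h0]
            linarith
        _ ≤ _ := Finset.sum_le_sum_of_subset_of_nonneg Finset.sdiff_subset (fun p hp _ => by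
            have := Real.log_natCast_nonneg p
            positivity)
    have h3 := mul_le_mul_of_nonneg_left (mert y hy) (by positivity : 0 ≤ 2 / y)
    have h4 : 2 / y * (10 * y) = 20 := by field_simp; norm_num
    push_cast
    linarith

theorem VV_bound (h y : ℝ) (hh : 0 ≤ h) (hy : 0 ≤ y) :
    VV h y ≤ 60 * (1 + Real.log (1 + h * y)) := by
  have hx : 0 ≤ h * y := mul_nonneg hh hy
  set x := h * y with hxd
  have hl0 : 0 ≤ Real.log (1 + x) := Real.log_nonneg (by linarith)
  have hl2 := Real.log_two_gt_d9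
  set n := ⌈Real.log (1 + x) / Real.log 2⌉₊ with hn
  have h1 : Real.log (1 + x) / Real.log 2 ≤ n := Nat.le_ceil _
  have h2 : (n : ℝ) ≤ Real.log (1 + x) / Real.log 2 + 1 :=
    (Nat.ceil_lt_add_one (by positivity)).le
  have h3 : x ≤ 2 ^ n := by
    rw [div_le_iff₀ (by linarith)] at h1
    have h4 : Real.log (1 + x) ≤ Real.log (2 ^ n) := by
      rw [Real.log_pow]
      exact h1
    have h5 := (Real.log_le_log_iff (by linarith) (by positivity)).1 h4
    linarith
  have h4 := VV_step n h y hh hy h3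
  have h5 : Real.log (1 + x) / Real.log 2 ≤ 3 / 2 * Real.log (1 + x) := by
    rw [div_le_iff₀ (by linarith)]
    nlinarith
  linarith

/-! ### refined bound for `bt` far away -/

theorem bt_far' (T : ℝ) (hT : 1 ≤ T) (W : ℝ → ℂ) (K l : ℝ)
    (hW : ∀ u ∈ Set.Icc 0 (Real.log T), ‖W u‖ ≤ K) (hl : ∀ u : ℝ, l ≤ u → W u = 0)
    (x : ℝ) (hx : l ≤ Real.log x) :
    ‖bt T W x‖ ≤ K * Real.exp (-(Real.log x - l) ^ 2 / 2) := by
  have hL : 0 ≤ Real.log T := Real.log_nonneg hT
  have hK : 0 ≤ K := (norm_nonneg _).trans (hW 0 ⟨le_rfl, hL⟩)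
  rw [bt_norm]
  have h1 : ‖∫ u in (0 : ℝ)..Real.log T, W u * (Real.exp (-(u - Real.log x) ^ 2 / 2) : ℂ)‖ ≤
      K * Real.exp (-(Real.log x - l) ^ 2 / 2) * Real.sqrt (2 * Real.pi) := by
    calc ‖∫ u in (0 : ℝ)..Real.log T, W u * (Real.exp (-(u - Real.log x) ^ 2 / 2) : ℂ)‖
        ≤ ∫ u in (0 : ℝ)..Real.log T, K * Real.exp (-(Real.log x - l) ^ 2 / 2) *
            Real.exp (-(u - l) ^ 2 / 2) := by
          apply intervalIntegral.norm_integral_le_of_norm_le hL
          · refine Eventually.of_forall fun u hu => ?_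
            rw [norm_mul, Complex.norm_real, Real.norm_of_nonneg (Real.exp_pos _).le]
            by_cases hul : l ≤ u
            · rw [hl u hul, norm_zero, zero_mul]
              positivity
            · push Not at hul
              rw [mul_assoc]
              apply mul_le_mul (hW u ⟨hu.1.le, hu.2⟩) _ (Real.exp_pos _).le hK
              rw [← Real.exp_add]
              apply Real.exp_le_exp.2
              nlinarith [mul_nonneg (sub_nonneg.2 hul.le) (sub_nonneg.2 hx)]
          · exact ((pp_gauss_integrable _).const_mul _).intervalIntegrable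
      _ = K * Real.exp (-(Real.log x - l) ^ 2 / 2) *
          ∫ u in (0 : ℝ)..Real.log T, Real.exp (-(u - l) ^ 2 / 2) :=
          intervalIntegral.integral_const_mul _ _
      _ ≤ K * Real.exp (-(Real.log x - l) ^ 2 / 2) * ∫ u : ℝ, Real.exp (-(u - l) ^ 2 / 2) := by
          apply mul_le_mul_of_nonneg_left _ (by positivity)
          rw [intervalIntegral.integral_of_le hL]
          exact setIntegral_le_integral (pp_gauss_integrable _)
            (Eventually.of_forall fun u => (Real.exp_pos _).le)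
      _ = _ := by rw [pp_gauss_int]
  have h2 : 0 < Real.sqrt (2 * Real.pi) := by
    apply Real.sqrt_pos.2
    positivity
  calc (1 / Real.sqrt (2 * Real.pi)) *
      ‖∫ u in (0 : ℝ)..Real.log T, W u * (Real.exp (-(u - Real.log x) ^ 2 / 2) : ℂ)‖
      ≤ (1 / Real.sqrt (2 * Real.pi)) *
        (K * Real.exp (-(Real.log x - l) ^ 2 / 2) * Real.sqrt (2 * Real.pi)) :=
        mul_le_mul_of_nonneg_left h1 (by positivity)
    _ = _ := by field_simp

/-! ### integrals of `n^{-1/2-is}` -/

theorem cpow_int (n : ℕ) (hn : 2 ≤ n) (t h : ℝ) :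
    ∫ s in t..(t + h), (n : ℂ) ^ (-(1 / 2 : ℂ) - I * s) =
      (n : ℂ) ^ (-(1 / 2 : ℂ)) * (n : ℂ) ^ (-(I * t)) * (1 - (n : ℂ) ^ (-(I * h))) /
        (I * Real.log n) := by
  have hn0 : (n : ℂ) ≠ 0 := by exact_mod_cast (by omega : n ≠ 0)
  have hlog : 0 < Real.log n := Real.log_pos (by exact_mod_cast hn)
  have hlc : Complex.log n = ((Real.log n : ℝ) : ℂ) := by
    rw [← Complex.natCast_log]
  have hne : I * (Real.log n : ℂ) ≠ 0 :=
    mul_ne_zero I_ne_zero (by exact_mod_cast hlog.ne')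
  have hd : ∀ s ∈ uIcc t (t + h), HasDerivAt (fun s : ℝ =>
      -(n : ℂ) ^ (-(1 / 2 : ℂ) - I * s) / (I * Real.log n))
      ((n : ℂ) ^ (-(1 / 2 : ℂ) - I * s)) s := by
    intro s _
    have h1 : HasDerivAt (fun s : ℝ => (-(1 / 2 : ℂ) - I * s)) (-I) s := by
      have h2 : HasDerivAt (fun s : ℝ => (s : ℂ)) 1 s := Complex.ofRealCLM.hasDerivAt
      simpa using (h2.const_mul I).const_sub (-(1 / 2 : ℂ))
    have h4 : ∀ s : ℝ, (n : ℂ) ^ (-(1 / 2 : ℂ) - I * s) =
        cexp (Complex.log n * (-(1 / 2 : ℂ) - I * s)) := fun s => Complex.cpow_def_of_ne_zero hn0 _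
    simp_rw [h4]
    have h3 := ((h1.const_mul (Complex.log n)).cexp).neg.div_const (I * Real.log n)
    refine h3.congr_deriv ?_
    rw [hlc]
    have hl1 : ((Real.log n : ℝ) : ℂ) ≠ 0 := by exact_mod_cast hlog.ne'
    field_simp
    try rw [div_self hl1]
  rw [intervalIntegral.integral_eq_sub_of_hasDerivAt hd]
  · have e1 : ∀ s : ℝ, (n : ℂ) ^ (-(1 / 2 : ℂ) - I * s) =
        (n : ℂ) ^ (-(1 / 2 : ℂ)) * (n : ℂ) ^ (-(I * s)) := by
      intro s
      rw [← Complex.cpow_add _ _ hn0]
      rfl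
    have e2 : (n : ℂ) ^ (-(I * ((t + h : ℝ) : ℂ))) =
        (n : ℂ) ^ (-(I * t)) * (n : ℂ) ^ (-(I * h)) := by
      rw [← Complex.cpow_add _ _ hn0]
      congr 1
      push_cast
      ring
    rw [e1, e1, e2]
    field_simp
    ring
  · apply Continuous.intervalIntegrable
    apply Continuous.const_cpow
    · fun_prop
    · exact Or.inl hn0

theorem one_sub_cpow (n : ℕ) (hn : 2 ≤ n) (h : ℝ) (hh : 0 ≤ h) :
    ‖1 - (n : ℂ) ^ (-(I * h))‖ ≤ min 2 (h * Real.log n) := by
  have hn0 : (n : ℂ) ≠ 0 := by exact_mod_cast (by omega : n ≠ 0)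
  have hlog : 0 < Real.log n := Real.log_pos (by exact_mod_cast hn)
  have hlc : Complex.log n = ((Real.log n : ℝ) : ℂ) := by
    rw [← Complex.natCast_log]
  have e1 : (n : ℂ) ^ (-(I * h)) = cexp (I * ((-(h * Real.log n) : ℝ) : ℂ)) := by
    rw [Complex.cpow_def_of_ne_zero hn0, hlc]
    congr 1
    push_cast
    ring
  rw [e1, norm_sub_rev]
  apply le_min
  · refine (norm_sub_le _ _).trans ?_
    rw [mul_comm I, Complex.norm_exp_ofReal_mul_I, norm_one]
    norm_num
  · refine (Real.norm_exp_I_mul_ofReal_sub_one_le).trans ?_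
    rw [Real.norm_eq_abs, abs_neg, abs_of_nonneg (by positivity)]

/-- coefficients of the short prime sum -/
noncomputable def bet (T h : ℝ) (W : ℝ → ℂ) (p : ℕ) : ℂ :=
  -I * ((p : ℂ) ^ (-(1 / 2 : ℂ)) * bt T W p * (1 - (p : ℂ) ^ (-(I * h))))

/-- the short prime sum -/
noncomputable def PSum (T h l : ℝ) (W : ℝ → ℂ) (t : ℝ) : ℂ :=
  ∑ p ∈ PP (2 * l), bet T h W p * (p : ℂ) ^ (-(I * t))

/-- term of the integrated prime side -/
noncomputable def gg (T t h : ℝ) (W : ℝ → ℂ) (n : ℕ) : ℂ := ∫ s in t..(t + h), ppf T s W n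

theorem gg_eq (T t h : ℝ) (W : ℝ → ℂ) (n : ℕ) (hn : 2 ≤ n) : gg T t h W n =
    (ArithmeticFunction.vonMangoldt n : ℂ) * ((n : ℂ) ^ (-(1 / 2 : ℂ)) * (n : ℂ) ^ (-(I * t)) *
      (1 - (n : ℂ) ^ (-(I * h))) / (I * Real.log n)) * bt T W n := by
  unfold gg ppf
  rw [intervalIntegral.integral_mul_const, intervalIntegral.integral_const_mul, cpow_int n hn]

theorem gg_prime (T t h : ℝ) (W : ℝ → ℂ) (p : ℕ) (hp : p.Prime) : gg T t h W p =
    bet T h W p * (p : ℂ) ^ (-(I * t)) := by
  have hlog : 0 < Real.log p := Real.log_pos (by exact_mod_cast hp.one_lt)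
  have hlc : ((Real.log p : ℝ) : ℂ) ≠ 0 := by exact_mod_cast hlog.ne'
  rw [gg_eq T t h W p hp.two_le, ArithmeticFunction.vonMangoldt_apply_prime hp]
  unfold bet
  have hI : (I : ℂ) ≠ 0 := I_ne_zero
  have hI2 : -I = 1 / I := by rw [one_div, Complex.inv_I]
  rw [hI2]
  field_simp

theorem gg_norm (T t h : ℝ) (hh : 0 ≤ h) (W : ℝ → ℂ) (n : ℕ) (hn : 2 ≤ n) : ‖gg T t h W n‖ ≤
    ArithmeticFunction.vonMangoldt n * ((n : ℝ) ^ (-(1 / 2) : ℝ) *
      (min 2 (h * Real.log n) / Real.log n)) * ‖bt T W n‖ := by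
  have hlog : 0 < Real.log n := Real.log_pos (by exact_mod_cast hn)
  rw [gg_eq T t h W n hn, norm_mul, norm_mul, Complex.norm_real,
    Real.norm_of_nonneg ArithmeticFunction.vonMangoldt_nonneg]
  apply mul_le_mul_of_nonneg_right _ (norm_nonneg _)
  apply mul_le_mul_of_nonneg_left _ ArithmeticFunction.vonMangoldt_nonneg
  rw [norm_div, norm_mul, norm_mul, norm_mul, Complex.norm_natCast_cpow_of_pos (by omega),
    Complex.norm_natCast_cpow_of_pos (by omega), Complex.norm_I, one_mul, Complex.norm_real,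
    Real.norm_of_nonneg hlog.le]
  have e1 : (-(1 / 2 : ℂ)).re = -(1 / 2) := by simp
  have e2 : (-(I * t) : ℂ).re = 0 := by simp
  rw [e1, e2, Real.rpow_zero, mul_one, mul_div_assoc]
  apply mul_le_mul_of_nonneg_left _ (by positivity)
  exact div_le_div_of_nonneg_right (one_sub_cpow n hn h hh) hlog.le

end Rig
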