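import Pool.Agent.W197.Rig.C2
import Pool.Agent.H382L.ClusterTail
import Pool.Agent.H382L.GapTail0

/-! # Deviation bound and moments -/

open Complex Filter Topology Set MeasureTheory

namespace Rig

open SG (phi hh nn dd dl)
open SP LG

theorem dev_bound (hRH : RHs) (H0 : ℝ) (hH0 : 0 ≤ H0) :
    ∃ C c0 T0 : ℝ, 1 ≤ C ∧ 0 < c0 ∧ 10 ≤ T0 ∧ ∀ T : ℝ, T0 ≤ T → ∀ t h : ℝ, 0 ≤ h → h ≤ H0 →
    T + Real.log T ≤ t → t + h ≤ 2 * T - Real.log T → ∀ k : ℕ, 1 ≤ k →
    (k : ℝ) ≤ c0 * Real.log T →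
    |cnt T t h - h * Real.log T / (2 * Real.pi)| ≤
      C * k * (1 + ‖Q1 (1 / 4) T k t‖ + ‖Q1 (1 / 4) T k (t + h)‖) +
      C * ‖PSum T h (ell (1 / 4) T k) (W3 (ell (1 / 4) T k)) t‖ +
      C * (1 + Real.log (1 + h * ell (1 / 4) T k)) := by
  obtain ⟨C1, c0, T1, hC1, hc0, hT1, h1⟩ := cnt_bound hRH (1 / 4) (by norm_num) (by norm_num)
  obtain ⟨C2, hC2, h2⟩ := ps_main
  obtain ⟨C3, T3, hC3, hT3, h3⟩ := Mk_bound hRH (1 / 4) (by norm_num) (by norm_num)
  set C : ℝ := 1 + 2 * C1 * C3 + C1 + C1 * H0 + C1 * (C2 * (1 + H0)) with hC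
  have hCpos : 1 ≤ C := by
    have : 0 ≤ C1 * H0 := by positivity
    have : 0 ≤ C1 * (C2 * (1 + H0)) := by positivity
    have : 0 ≤ 2 * C1 * C3 := by positivity
    linarith
  refine ⟨C, c0, max T1 T3, hCpos, hc0, hT1.trans (le_max_left _ _), ?_⟩
  intro T hT t h hh hhH ht1 ht2 k hk hkc
  have hTT1 : T1 ≤ T := (le_max_left _ _).trans hT
  have hTT3 : T3 ≤ T := (le_max_right _ _).trans hT
  have hT10 : 10 ≤ T := hT1.trans hTT1
  have hL : 0 < Real.log T := Real.log_pos (by linarith)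
  have hk0 : (1 : ℝ) ≤ k := by exact_mod_cast hk
  have hl := MkB.ell_pos (κ := 1 / 4) (by norm_num) hT10 hk
  set l := ell (1 / 4) T k with hld
  have hw := W3_cont l hl
  have e1 := h1 T hTT1 t h hh ht1 ht2 k hk hkc
  have e2 := h2 T (by linarith) t h l hh hl (W3 l) (fun u _ => hw.2 u)
    (fun u hu => by rw [NoZero.W3_eq, NoZero.w3_zero hl hu, Complex.ofReal_zero])
  have e3 := h3 T hTT3 t ht1 (by linarith) k hk
  have e4 := h3 T hTT3 (t + h) (by linarith) ht2 k hk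
  set q1 := ‖Q1 (1 / 4) T k t‖ with hq1
  set q2 := ‖Q1 (1 / 4) T k (t + h)‖ with hq2
  have hq10 : 0 ≤ q1 := norm_nonneg _
  have hq20 : 0 ≤ q2 := norm_nonneg _
  set P := ‖PSum T h l (W3 l) t‖ with hP
  have hP0 : 0 ≤ P := norm_nonneg _
  have hlog : 0 ≤ Real.log (1 + h * l) := Real.log_nonneg (by
    have : 0 ≤ h * l := by positivity
    linarith)
  set v := 1 + Real.log (1 + h * l) with hv
  have hv1 : 1 ≤ v := by linarith
  have e5 : ‖∫ s in t..(t + h), ps T s (W3 l)‖ ≤ P + C2 * (1 + H0) * v := by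
    have e6 : ‖∫ s in t..(t + h), ps T s (W3 l)‖ ≤ ‖(∫ s in t..(t + h), ps T s (W3 l)) -
        PSum T h l (W3 l) t‖ + P := by
      have := norm_add_le ((∫ s in t..(t + h), ps T s (W3 l)) - PSum T h l (W3 l) t)
        (PSum T h l (W3 l) t)
      rwa [sub_add_cancel] at this
    have e7 : C2 * (1 + h) * v ≤ C2 * (1 + H0) * v := by
      apply mul_le_mul_of_nonneg_right _ (by linarith)
      apply mul_le_mul_of_nonneg_left _ hC2.le
      linarith
    linarith
  refine e1.trans ?_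
  have e6 : Mk T k t + Mk T k (t + h) + h + ‖∫ s in t..(t + h), ps T s (W3 l)‖ ≤
      2 * C3 * (k * (1 + q1 + q2)) + H0 * v + (P + C2 * (1 + H0) * v) := by
    have e7 : C3 * k * (1 + q1) + C3 * k * (1 + q2) ≤ 2 * C3 * (k * (1 + q1 + q2)) := by
      have : 0 ≤ C3 * k * (q1 + q2) := by positivity
      nlinarith
    have e8 : h ≤ H0 * v := by nlinarith
    linarith
  calc C1 * (Mk T k t + Mk T k (t + h) + h + ‖∫ s in t..(t + h), ps T s (W3 l)‖)
      ≤ C1 * (2 * C3 * (k * (1 + q1 + q2)) + H0 * v + (P + C2 * (1 + H0) * v)) :=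
        mul_le_mul_of_nonneg_left e6 hC1.le
    _ = (2 * C1 * C3) * (k * (1 + q1 + q2)) + C1 * P +
        (C1 * H0 + C1 * (C2 * (1 + H0))) * v := by ring
    _ ≤ C * (k * (1 + q1 + q2)) + C * P + C * v := by
        have a1 : 0 ≤ C1 * H0 := by positivity
        have a2 : 0 ≤ C1 * (C2 * (1 + H0)) := by positivity
        have a3 : 0 ≤ 2 * C1 * C3 := by positivity
        have b1 : 2 * C1 * C3 ≤ C := by linarith
        have b2 : C1 ≤ C := by linarith
        have b3 : C1 * H0 + C1 * (C2 * (1 + H0)) ≤ C := by linarith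
        have c1 := mul_le_mul_of_nonneg_right b1 (by positivity : 0 ≤ (k : ℝ) * (1 + q1 + q2))
        have c2 := mul_le_mul_of_nonneg_right b2 hP0
        have c3 := mul_le_mul_of_nonneg_right b3 (by linarith : 0 ≤ v)
        linarith
    _ = _ := by ring

theorem PSum_cont (T h l : ℝ) (W : ℝ → ℂ) : Continuous fun t : ℝ => PSum T h l W t := by
  unfold PSum
  apply continuous_finsetSum
  intro p hp
  have hp0 : (p : ℂ) ≠ 0 := by exact_mod_cast (mem_PP.1 hp).1.ne_zero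
  apply Continuous.mul continuous_const
  apply Continuous.const_cpow
  · fun_prop
  · exact Or.inl hp0

theorem bet_sq (T h : ℝ) (hT : 1 ≤ T) (hh : 0 ≤ h) (W : ℝ → ℂ)
    (hW : ∀ u ∈ Set.Icc 0 (Real.log T), ‖W u‖ ≤ 2) (p : ℕ) (hp : p.Prime) :
    ‖bet T h W p‖ ^ 2 ≤ 16 * (min 1 (h * Real.log p) / p) := by
  have hp0 : (0 : ℝ) < p := by exact_mod_cast hp.pos
  have hlp : 0 < Real.log p := Real.log_pos (by exact_mod_cast hp.one_lt)
  have h4 : ‖(p : ℂ) ^ (-(1 / 2 : ℂ))‖ ^ 2 = 1 / p := by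
    rw [Complex.norm_natCast_cpow_of_pos hp.pos, ← Real.rpow_natCast, ← Real.rpow_mul hp0.le]
    have : (-(1 / 2 : ℂ)).re * ((2 : ℕ) : ℝ) = -1 := by
      simp
    rw [this, Real.rpow_neg_one, one_div]
  have h5 : ‖bt T W p‖ ^ 2 ≤ 4 := by
    have := bt_le T hT W 2 hW p
    calc _ ≤ (2 : ℝ) ^ 2 := pow_le_pow_left₀ (norm_nonneg _) this 2
      _ = 4 := by norm_num
  have h6 := one_sub_cpow p hp.two_le h hh
  have h7 : ‖1 - (p : ℂ) ^ (-(I * h))‖ ^ 2 ≤ 4 * min 1 (h * Real.log p) := by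
    set x := h * Real.log p with hx
    have hx0 : 0 ≤ x := by positivity
    have h8 : min 2 x ≤ 2 * min 1 x := by
      rcases le_total 1 x with h9 | h9
      · rw [min_eq_left h9]
        refine (min_le_left _ _).trans (by norm_num)
      · rw [min_eq_right h9]
        refine (min_le_right _ _).trans (by linarith)
    have h9 : 0 ≤ min 2 x := le_min (by norm_num) hx0
    calc ‖1 - (p : ℂ) ^ (-(I * h))‖ ^ 2 ≤ (min 2 x) ^ 2 := pow_le_pow_left₀ (norm_nonneg _) h6 2
      _ = min 2 x * min 2 x := sq _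
      _ ≤ 2 * (2 * min 1 x) := mul_le_mul (min_le_left _ _) h8 h9 (by norm_num)
      _ = _ := by ring
  unfold bet
  rw [norm_mul, norm_neg, Complex.norm_I, one_mul, norm_mul, norm_mul, mul_pow, mul_pow, h4]
  calc 1 / (p : ℝ) * ‖bt T W p‖ ^ 2 * ‖1 - (p : ℂ) ^ (-(I * h))‖ ^ 2
      ≤ 1 / (p : ℝ) * 4 * (4 * min 1 (h * Real.log p)) := by
        apply mul_le_mul _ h7 (by positivity) (by positivity)
        exact mul_le_mul_of_nonneg_left h5 (by positivity)
    _ = _ := by ring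

/-- moments of the short prime sum -/
theorem mom_PS : ∃ C T0 : ℝ, 1 ≤ C ∧ 10 ≤ T0 ∧ ∀ T : ℝ, T0 ≤ T → ∀ (k : ℕ) (h : ℝ), 1 ≤ k →
    0 ≤ h → ∀ W : ℝ → ℂ, (∀ u ∈ Set.Icc 0 (Real.log T), ‖W u‖ ≤ 2) → ∀ V1 V2 : ℝ, T ≤ V1 →
    V1 ≤ V2 → V2 ≤ 2 * T →
    ∫ t in V1..V2, ‖PSum T h (ell (1 / 4) T k) W t‖ ^ (2 * k) ≤
      4 * T * (C * k * (1 + Real.log (1 + h * ell (1 / 4) T k))) ^ k := by
  obtain ⟨T0, h10, hT0⟩ := mom_prime (1 / 4) (by norm_num) (by norm_num)
  refine ⟨5760, T0, by norm_num, h10, fun T hT k h hk hh W hW V1 V2 hV1 hV hV2 => ?_⟩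
  have hT10 : 10 ≤ T := h10.trans hT
  have hTpos : 0 < T := by linarith
  have hL : 0 < Real.log T := Real.log_pos (by linarith)
  have hk0 : (0 : ℝ) < k := by exact_mod_cast hk
  have hD : 0 < dd (1 / 4) T := SG.Deep.dd_pos (1 / 4) T hTpos
  have hDT : dd (1 / 4) T ≤ T := by
    calc dd (1 / 4) T ≤ T ^ (1 : ℝ) := Real.rpow_le_rpow_of_exponent_le (by linarith) (by norm_num)
      _ = T := Real.rpow_one T
  have hl := MkB.ell_pos (κ := 1 / 4) (by norm_num) hT10 hk
  set l := ell (1 / 4) T k with hld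
  set X := ⌊Real.exp (2 * l)⌋₊ with hX
  have h2l : 2 * l = (1 - 1 / 4) * Real.log T / k := by
    rw [hld]
    unfold ell
    field_simp
  have hXk : (X : ℝ) ^ k ≤ T ^ (1 - 1 / 4 : ℝ) := by
    have h1 : (X : ℝ) ≤ Real.exp (2 * l) := Nat.floor_le (Real.exp_pos _).le
    calc (X : ℝ) ^ k ≤ (Real.exp (2 * l)) ^ k :=
          pow_le_pow_left₀ (Nat.cast_nonneg _) h1 k
      _ = T ^ (1 - 1 / 4 : ℝ) := by
          rw [← Real.exp_nat_mul, h2l, Real.rpow_def_of_pos hTpos]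
          congr 1
          field_simp
  have hx0 : 0 ≤ h * l := by positivity
  have hlog : 0 ≤ Real.log (1 + h * l) := Real.log_nonneg (by linarith)
  set v := 1 + Real.log (1 + h * l) with hv
  have hβ : ∑ p ∈ (Finset.Icc 1 X).filter Nat.Prime, ‖bet T h W p‖ ^ 2 ≤ 1920 * v := by
    calc _ ≤ ∑ p ∈ PP (2 * l), 16 * (min 1 (h * Real.log p) / p) := by
          apply Finset.sum_le_sum
          intro p hp
          exact bet_sq T h (by linarith) hh W hW p (Finset.mem_filter.1 hp).2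
      _ = 16 * VV h (2 * l) := by
          unfold VV
          rw [Finset.mul_sum]
      _ ≤ 16 * (60 * (1 + Real.log (1 + h * (2 * l)))) :=
          mul_le_mul_of_nonneg_left (VV_bound h (2 * l) hh (by linarith)) (by norm_num)
      _ ≤ 1920 * v := by
          have h1 : Real.log (1 + h * (2 * l)) ≤ 1 + Real.log (1 + h * l) := by
            have h2 : Real.log (1 + h * (2 * l)) ≤ Real.log (2 * (1 + h * l)) := by
              apply Real.log_le_log (by nlinarith)
              nlinarith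
            rw [Real.log_mul (by norm_num) (by linarith)] at h2
            have := Real.log_two_lt_d9
            linarith
          rw [hv]
          linarith
  have hfac : (k.factorial : ℝ) ≤ (k : ℝ) ^ k := by exact_mod_cast Nat.factorial_le_pow k
  have h3k : (3 : ℝ) ≤ 3 ^ k := by
    calc (3 : ℝ) = 3 ^ 1 := by norm_num
      _ ≤ 3 ^ k := pow_le_pow_right₀ (by norm_num) hk
  set f : ℝ → ℝ := fun t => ‖PSum T h l W t‖ ^ (2 * k) with hf
  have hfc : Continuous f := (PSum_cont T h l W).norm.pow _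
  have hf0 : ∀ t, 0 ≤ f t := fun t => by positivity
  have hI : ∀ t0 : ℝ, Integrable (fun t => wt t0 (dd (1 / 4) T) t * f t) ∧
      ∫ t, wt t0 (dd (1 / 4) T) t * f t ≤ dd (1 / 4) T * (5760 * k * v) ^ k := by
    intro t0
    obtain ⟨h1, h2⟩ := hT0 T hT t0 k X (bet T h W) hk hXk
    refine ⟨h1, h2.trans ?_⟩
    calc 3 * dd (1 / 4) T * k.factorial *
          (∑ p ∈ (Finset.Icc 1 X).filter Nat.Prime, ‖bet T h W p‖ ^ 2) ^ k
        ≤ 3 ^ k * dd (1 / 4) T * (k : ℝ) ^ k * (1920 * v) ^ k := by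
          apply mul_le_mul
          · apply mul_le_mul (mul_le_mul_of_nonneg_right h3k hD.le) hfac (by positivity)
              (by positivity)
          · exact pow_le_pow_left₀ (Finset.sum_nonneg fun _ _ => by positivity) hβ k
          · exact pow_nonneg (Finset.sum_nonneg fun _ _ => by positivity) k
          · positivity
      _ = dd (1 / 4) T * (5760 * k * v) ^ k := by
          rw [show 5760 * (k : ℝ) * v = 3 * (k * (1920 * v)) by ring, mul_pow, mul_pow]
          ring_nf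
  have hleb := GapAux.gauss_to_leb f hfc hf0 (dd (1 / 4) T) _ T hD hTpos hI
  have h5 : ∫ t in V1..V2, f t ≤ ∫ t in T..(2 * T), f t := by
    rw [intervalIntegral.integral_of_le hV, intervalIntegral.integral_of_le (by linarith)]
    apply setIntegral_mono_set
    · exact (hfc.integrableOn_Icc).mono_set Set.Ioc_subset_Icc_self
    · exact Eventually.of_forall fun t => hf0 t
    · exact (Set.Ioc_subset_Ioc hV1 hV2).eventuallyLE
  refine h5.trans (hleb.trans ?_)
  have h6 : 2 * (T / dd (1 / 4) T + 1) * (dd (1 / 4) T * (5760 * k * v) ^ k) =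
      2 * (T + dd (1 / 4) T) * (5760 * k * v) ^ k := by
    field_simp
  rw [h6]
  apply mul_le_mul_of_nonneg_right _ (by positivity)
  linarith

end Rig
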