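import Pool.Agent.W197.Rig.D

/-! # Counting indices -/

open Complex Filter Topology Set MeasureTheory

namespace Rig

open SG (phi hh nn dd dl ord NZ zmult)
open SP LG

theorem cnt_filter {T : ℝ} (hT : 1 ≤ T) (t h : ℝ) : cnt T t h =
    ∑ s ∈ (NoZero.ZZ_finite hT).toFinset.filter (fun s => t ≤ s.im ∧ s.im ≤ t + h), (mu s : ℝ) := by
  rw [cnt_eq hT, Finset.sum_filter]
  refine Finset.sum_congr rfl fun s _ => ?_
  by_cases h1 : t ≤ s.im ∧ s.im ≤ t + h
  · rw [if_pos h1, if_pos ⟨by linarith [h1.1], by linarith [h1.2]⟩, mul_one]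
  · rw [if_neg h1, if_neg, mul_zero]
    rintro ⟨h2, h3⟩
    exact h1 ⟨by linarith, by linarith⟩

theorem cnt_ge {T t h : ℝ} (hT : 1 ≤ T) {n m : ℕ} (hn : 1 ≤ n) (h1 : T < ord n)
    (h2 : ord (n + m) ≤ 2 * T) (h3 : t ≤ ord n) (h4 : ord (n + m) ≤ t + h) :
    (m : ℝ) + 1 ≤ cnt T t h := by
  have h5 := CTAux.zeros_between hT hn (by omega : n ≤ n + m) h1 h2
  rw [cnt_filter hT]
  push_cast at h5
  have h6 : ∑ s ∈ (Mom2.ZZ_finite T hT).toFinset.filter
      (fun s => ord n ≤ s.im ∧ s.im ≤ ord (n + m)), (mu s : ℝ) ≤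
      ∑ s ∈ (NoZero.ZZ_finite hT).toFinset.filter (fun s => t ≤ s.im ∧ s.im ≤ t + h),
        (mu s : ℝ) := by
    apply Finset.sum_le_sum_of_subset_of_nonneg
    · intro s hs
      rw [Finset.mem_filter] at hs ⊢
      exact ⟨hs.1, by linarith [hs.2.1], by linarith [hs.2.2]⟩
    · intro s _ _
      positivity
  linarith

theorem cnt_le {T t h : ℝ} (hT : 1 ≤ T) (hh : 0 ≤ h) {n m : ℕ} (hn : 1 ≤ n)
    (h3 : ord n < t) (h4 : t + h < ord (n + m)) :
    cnt T t h ≤ (m : ℝ) - 1 := by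
  classical
  have h1 : NZ (t + h) < n + m := by
    by_contra hcon
    rw [not_lt] at hcon
    have := (SG.ord_le_iff (by omega : 1 ≤ n + m) (t + h)).mpr hcon
    linarith
  have h2 := SG.le_NZ_ord hn
  have h5 : (∑ s ∈ (NoZero.ZZ_finite hT).toFinset.filter (fun s => t ≤ s.im ∧ s.im ≤ t + h),
      zmult s) + NZ (ord n) ≤ NZ (t + h) := by
    rw [SG.NZ_eq, SG.NZ_eq, ← Finset.sum_union]
    · apply Finset.sum_le_sum_of_subset
      intro s hs
      rw [Finset.mem_union, Finset.mem_filter, Set.Finite.mem_toFinset,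
        Set.Finite.mem_toFinset] at hs
      rw [Set.Finite.mem_toFinset]
      rcases hs with ⟨⟨a1, a2, a3, a4, a5⟩, a6, a7⟩ | ⟨a1, a2, a3, a4, a5⟩
      · exact ⟨a5, a1, a2, by linarith, a7⟩
      · exact ⟨a1, a2, a3, a4, by linarith⟩
    · rw [Finset.disjoint_left]
      intro s hs hs2
      rw [Finset.mem_filter] at hs
      rw [Set.Finite.mem_toFinset] at hs2
      obtain ⟨a1, a2, a3, a4, a5⟩ := hs2
      linarith [hs.2.1]
  have h6 : (∑ s ∈ (NoZero.ZZ_finite hT).toFinset.filter (fun s => t ≤ s.im ∧ s.im ≤ t + h),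
      zmult s) + 1 ≤ m := by omega
  have h7 : ((∑ s ∈ (NoZero.ZZ_finite hT).toFinset.filter (fun s => t ≤ s.im ∧ s.im ≤ t + h),
      zmult s : ℕ) : ℝ) + 1 ≤ m := by exact_mod_cast h6
  rw [cnt_filter hT]
  rw [Nat.cast_sum] at h7
  have h8 : ∑ s ∈ (NoZero.ZZ_finite hT).toFinset.filter (fun s => t ≤ s.im ∧ s.im ≤ t + h),
      ((zmult s : ℕ) : ℝ) = ∑ s ∈ (NoZero.ZZ_finite hT).toFinset.filter
      (fun s => t ≤ s.im ∧ s.im ≤ t + h), (mu s : ℝ) := rfl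
  linarith

end Rig
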