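import Pool.Agent.W197.Rig.E

/-! # One block: deviations of sums of consecutive gaps -/

open Complex Filter Topology Set MeasureTheory

namespace Rig

open SG (phi hh nn dd dl ord NZ zmult)
open SP LG

theorem one_le_of {C P v q1 q2 lam D : ℝ} {k : ℕ} (hC : 1 ≤ C) (hlam : 0 < lam)
    (hq1 : 0 ≤ q1) (hq2 : 0 ≤ q2) (hP : 0 ≤ P) (hk : C * k ≤ lam / 24) (hv : C * v ≤ lam / 8)
    (hD : lam / 2 ≤ D) (hD2 : D ≤ C * k * (1 + q1 + q2) + C * P + C * v) :
    1 ≤ q1 ^ (2 * k) + q2 ^ (2 * k) + (4 * C * P / lam) ^ (2 * k) := by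
  have h0 : 0 ≤ 4 * C * P / lam := by positivity
  by_contra hcon
  rw [not_le] at hcon
  have a1 : 0 ≤ q1 ^ (2 * k) := by positivity
  have a2 : 0 ≤ q2 ^ (2 * k) := by positivity
  have a3 : 0 ≤ (4 * C * P / lam) ^ (2 * k) := by positivity
  have b1 : q1 < 1 := by
    by_contra h
    rw [not_lt] at h
    have := one_le_pow₀ h (n := 2 * k)
    linarith
  have b2 : q2 < 1 := by
    by_contra h
    rw [not_lt] at h
    have := one_le_pow₀ h (n := 2 * k)
    linarith
  have b3 : 4 * C * P / lam < 1 := by
    by_contra h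
    rw [not_lt] at h
    have := one_le_pow₀ h (n := 2 * k)
    linarith
  rw [div_lt_one hlam] at b3
  have hCk : 0 ≤ C * k := by positivity
  have h1 : C * k * (1 + q1 + q2) ≤ C * k * 3 := mul_le_mul_of_nonneg_left (by linarith) hCk
  linarith

theorem two_pow_k (k : ℕ) : (k : ℝ) ≤ 2 ^ k := by
  exact_mod_cast (Nat.lt_two_pow_self (n := k)).le

theorem log_add_one {m : ℕ} (hm : 1 ≤ m) : 1 ≤ 2 * Real.log (m + 1) := by
  have h1 : Real.log 2 ≤ Real.log (m + 1) := by
    apply Real.log_le_log (by norm_num)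
    have : (1 : ℝ) ≤ m := by exact_mod_cast hm
    linarith
  have := Real.log_two_gt_d9
  linarith

/-- the window that detects a deviation -/
theorem near_dev {T t lam : ℝ} (hT : 1 ≤ T) (hL : 100 ≤ Real.log T) {n m : ℕ} (hn : 1 ≤ n)
    (hm3 : (m : ℝ) ≤ 3 * Real.log T)
    (hlam : 2 ≤ lam) (h1 : T + 3 * Real.log T ≤ ord n) (h2 : ord n ≤ 2 * T - 3 * Real.log T)
    (h3 : lam ≤ |(ord (n + m) - ord n) * Real.log T / (2 * Real.pi) - m|)
    (h4 : |ord n - t| ≤ 1 / Real.log T) :
    lam / 2 ≤ |cnt T (t + 2 / Real.log T) (2 * Real.pi * (m + lam / 2) / Real.log T) -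
      (2 * Real.pi * (m + lam / 2) / Real.log T) * Real.log T / (2 * Real.pi)| ∨
    lam / 2 ≤ |cnt T (t + -(1 / Real.log T)) (2 * Real.pi * (max 0 (m - lam / 2)) / Real.log T) -
      (2 * Real.pi * (max 0 (m - lam / 2)) / Real.log T) * Real.log T / (2 * Real.pi)| := by
  have hpi := Real.pi_pos
  have hpi3 := Real.pi_gt_three
  have hpi4 := Real.pi_lt_four
  set L := Real.log T with hLd
  have hL0 : 0 < L := by linarith
  have hm0 : (0 : ℝ) ≤ m := Nat.cast_nonneg m
  have h5 := abs_le.1 h4
  have hmono : ord n ≤ ord (n + m) := SG.ord_mono hn (by omega)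
  rcases le_abs.1 h3 with h6 | h6
  · left
    set h := 2 * Real.pi * (m + lam / 2) / L with hh
    have hh0 : 0 ≤ h := by positivity
    have e1 : h * L / (2 * Real.pi) = m + lam / 2 := by
      rw [hh]; field_simp
    have e2 : 2 * Real.pi * (m + lam) / L ≤ ord (n + m) - ord n := by
      rw [div_le_iff₀ hL0]
      have h7 : m + lam ≤ (ord (n + m) - ord n) * L / (2 * Real.pi) := by linarith
      rw [le_div_iff₀ (by positivity)] at h7
      linarith
    have e3 : h + 3 / L < 2 * Real.pi * (m + lam) / L := by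
      rw [hh, ← add_div]
      apply div_lt_div_of_pos_right _ hL0
      nlinarith
    have e4 : 2 / L + 1 / L = 3 / L := by ring
    have e5 : 1 / L < 2 / L := by
      apply div_lt_div_of_pos_right _ hL0
      norm_num
    have h8 := cnt_le (t := t + 2 / L) (h := h) hT hh0 hn (m := m) (by linarith) (by linarith)
    rw [e1, le_abs]
    right
    linarith
  · right
    have h7 : 0 ≤ (ord (n + m) - ord n) * L / (2 * Real.pi) := by
      apply div_nonneg _ (by positivity)
      exact mul_nonneg (by linarith) hL0.le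
    have hlm : lam ≤ m := by linarith
    have hmax : max 0 ((m : ℝ) - lam / 2) = m - lam / 2 := max_eq_right (by linarith)
    rw [hmax]
    set h := 2 * Real.pi * (m - lam / 2) / L with hh
    have hh0 : 0 ≤ h := by
      rw [hh]
      apply div_nonneg _ hL0.le
      apply mul_nonneg (by positivity) (by linarith)
    have e1 : h * L / (2 * Real.pi) = m - lam / 2 := by
      rw [hh]; field_simp
    have e2 : ord (n + m) - ord n ≤ 2 * Real.pi * (m - lam) / L := by
      rw [le_div_iff₀ hL0]
      have h7 : (ord (n + m) - ord n) * L / (2 * Real.pi) ≤ m - lam := by linarith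
      rw [div_le_iff₀ (by positivity)] at h7
      linarith
    have e3 : 2 * Real.pi * (m - lam) / L + 2 / L ≤ h := by
      rw [hh, ← add_div]
      apply div_le_div_of_nonneg_right _ hL0.le
      nlinarith
    have e4 : 1 / L + 1 / L = 2 / L := by ring
    have e6 : h ≤ 24 := by
      rw [hh, div_le_iff₀ hL0]
      have : 2 * Real.pi * (m - lam / 2) ≤ 2 * 4 * (3 * L) := by
        apply mul_le_mul _ (by linarith) (by linarith) (by norm_num)
        linarith
      linarith
    have h8 := cnt_ge (t := t + -(1 / L)) (h := h) hT hn (m := m) (by linarith)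
      (by
        have : 0 ≤ 2 / L := by positivity
        linarith) (by linarith) (by linarith)
    rw [e1, le_abs]
    left
    linarith

end Rig
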