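import Pool.Agent.W197.Rig.F

/-! # One block: auxiliary estimates -/

open Complex Filter Topology Set MeasureTheory

namespace Rig

open SG (phi hh nn dd dl ord NZ zmult)
open SP LG

theorem int_shift {F : ℝ → ℝ} (V1 V2 a : ℝ) :
    ∫ t in V1..V2, F (t + a) = ∫ t in (V1 + a)..(V2 + a), F t :=
  intervalIntegral.integral_comp_add_right F a

/-- bound of the logarithmic factor -/
theorem log_factor {A0 k L l h h1 m lam q : ℝ} (hA0 : 24 ≤ A0) (hk : 1 ≤ k) (hL : 0 < L)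
    (hl0 : 0 < l) (hlL : l * (8 * k) = 3 * L) (hm : 1 ≤ m) (hq : q = Real.log (m + 1))
    (hq1 : 1 ≤ 2 * q) (hlam : 0 < lam) (hkl : lam ≤ 2 * A0 * k)
    (hh1 : h1 = 2 * Real.pi * (m + lam / 2) / L) (hh0 : 0 ≤ h) (hhh : h ≤ h1) :
    1 + Real.log (1 + h * l) ≤ (2 * (1 + Real.log (3 + 3 * A0)) + 1) * q := by
  have hpi := Real.pi_pos
  have hpi4 := Real.pi_lt_four
  have hq0 : 0 < q := by linarith
  have hlA0 : 0 ≤ Real.log (3 + 3 * A0) := Real.log_nonneg (by linarith)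
  have e1 : h * l ≤ 3 * (m + A0) := by
    have e2 : h1 * l ≤ 3 * (m + A0) := by
      have e3 : h1 * l * (8 * k) = 6 * Real.pi * (m + lam / 2) := by
        calc h1 * l * (8 * k) = h1 * (l * (8 * k)) := by ring
          _ = h1 * (3 * L) := by rw [hlL]
          _ = _ := by rw [hh1]; field_simp; ring
      have e4 : 6 * Real.pi * (m + lam / 2) ≤ 3 * (m + A0) * (8 * k) := by
        have e5 : 6 * Real.pi * (m + lam / 2) ≤ 24 * (m + lam / 2) := by
          apply mul_le_mul_of_nonneg_right (by linarith) (by positivity)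
        have e6 : m ≤ m * k := le_mul_of_one_le_right (by linarith) hk
        have e7 : 3 * (m + A0) * (8 * k) = 24 * (m * k) + 12 * (2 * A0 * k) := by ring
        linarith
      rw [← e3] at e4
      exact le_of_mul_le_mul_right e4 (by positivity)
    have : h * l ≤ h1 * l := mul_le_mul_of_nonneg_right hhh hl0.le
    linarith
  have hx : 0 ≤ h * l := by positivity
  have e2 : Real.log (1 + h * l) ≤ Real.log ((3 + 3 * A0) * (m + 1)) := by
    apply Real.log_le_log (by linarith)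
    have e5 : A0 ≤ A0 * m := le_mul_of_one_le_right (by linarith) hm
    have e6 : (3 + 3 * A0) * (m + 1) = 3 * m + 3 + 3 * (A0 * m) + 3 * A0 := by ring
    linarith
  rw [Real.log_mul (by positivity) (by positivity), ← hq] at e2
  have e3 : 1 + Real.log (3 + 3 * A0) ≤ (1 + Real.log (3 + 3 * A0)) * (2 * q) :=
    le_mul_of_one_le_right (by linarith) hq1
  calc 1 + Real.log (1 + h * l) ≤ (1 + Real.log (3 + 3 * A0)) * (2 * q) + q := by linarith
    _ = _ := by ring

/-- bound of the moment factor -/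
theorem moment_factor {C CP C4 C5 k v q lam : ℝ} (hC : 1 ≤ C) (hCP : 1 ≤ CP) (hC4 : 1 ≤ C4)
    (hk : 0 < k) (hkl : k ≤ lam) (hv : v ≤ C4 * q) (hv0 : 0 ≤ v) (hq : 0 < q) (hlam : 0 < lam)
    (hC5 : 16 * C ^ 2 * CP * C4 ≤ C5) :
    (4 * C / lam) ^ 2 * (CP * k * v) ≤ C5 * q / lam := by
  have e : (4 * C / lam) ^ 2 * (CP * k * v) = 16 * C ^ 2 * CP * k * v / lam ^ 2 := by
    field_simp
    ring
  rw [e, div_le_div_iff₀ (by positivity) hlam]
  calc 16 * C ^ 2 * CP * k * v * lam ≤ 16 * C ^ 2 * CP * lam * (C4 * q) * lam := by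
        apply mul_le_mul_of_nonneg_right _ hlam.le
        apply mul_le_mul _ hv hv0 (by positivity)
        exact mul_le_mul_of_nonneg_left hkl (by positivity)
    _ = (16 * C ^ 2 * CP * C4) * (q * lam ^ 2) := by ring
    _ ≤ C5 * (q * lam ^ 2) := mul_le_mul_of_nonneg_right hC5 (by positivity)
    _ = _ := by ring

/-- final arithmetic -/
theorem final_arith {T L CM C5 C6 A A0 q lam : ℝ} {k : ℕ} {Nc : ℝ} (hT : 0 < T) (hL : 0 < L)
    (hCM : 0 < CM) (hC5 : 0 < C5) (hC6 : C6 = 304 * (max CM 1) * C5) (hA0 : 24 ≤ A0)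
    (hA1 : 2 * A0 ≤ A) (hA2 : C6 ≤ A) (hq : 0 < q) (hlam : 0 < lam) (hlamA : A * q ≤ lam)
    (hk : 1 ≤ k) (hkl : lam ≤ 2 * A0 * k)
    (h : Nc * 2 ≤ (8 * CM * k * (38 * T * (C5 * q / lam) ^ k)) * L) :
    Nc ≤ T * L * (A * q / lam) ^ (lam / A) := by
  have hk0 : (0 : ℝ) < k := by exact_mod_cast hk
  set b : ℝ := C5 * q / lam with hb
  have hb0 : 0 < b := by positivity
  have hCM1 : 1 ≤ max CM 1 := le_max_right _ _
  have hC60 : 0 < C6 := by rw [hC6]; positivity
  have hA : 0 < A := by linarith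
  have e1 : Nc ≤ T * L * (152 * (max CM 1) * (k * b ^ k)) := by
    have e2 : (8 * CM * k * (38 * T * b ^ k)) * L = 2 * (T * L * (152 * CM * (k * b ^ k))) := by
      ring
    rw [e2] at h
    have e3 : T * L * (152 * CM * (k * b ^ k)) ≤ T * L * (152 * (max CM 1) * (k * b ^ k)) := by
      apply mul_le_mul_of_nonneg_left _ (by positivity)
      apply mul_le_mul_of_nonneg_right _ (by positivity)
      exact mul_le_mul_of_nonneg_left (le_max_left _ _) (by norm_num)
    linarith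
  have e2 : 152 * (max CM 1) * (k * b ^ k) ≤ (C6 * q / lam) ^ k := by
    have f1 : 152 * (max CM 1) ≤ (152 * (max CM 1)) ^ k :=
      le_self_pow₀ (by linarith) (by omega)
    have f2 : (k : ℝ) * b ^ k ≤ 2 ^ k * b ^ k :=
      mul_le_mul_of_nonneg_right (two_pow_k k) (by positivity)
    calc 152 * (max CM 1) * (k * b ^ k) ≤ (152 * (max CM 1)) ^ k * (2 ^ k * b ^ k) :=
          mul_le_mul f1 f2 (by positivity) (by positivity)
      _ = (C6 * q / lam) ^ k := by
          rw [← mul_pow, ← mul_pow]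
          congr 1
          rw [hb, hC6]
          ring
  have e3 : (C6 * q / lam) ^ k ≤ (A * q / lam) ^ (lam / A) := by
    have b1 : A * q / lam ≤ 1 := by rw [div_le_one hlam]; exact hlamA
    have b2 : 0 < A * q / lam := by positivity
    calc (C6 * q / lam) ^ k ≤ (A * q / lam) ^ k := by
          apply pow_le_pow_left₀ (by positivity)
          apply div_le_div_of_nonneg_right _ hlam.le
          exact mul_le_mul_of_nonneg_right hA2 hq.le
      _ = (A * q / lam) ^ (k : ℝ) := (Real.rpow_natCast _ _).symm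
      _ ≤ (A * q / lam) ^ (lam / A) := by
          apply Real.rpow_le_rpow_of_exponent_ge b2 b1
          rw [div_le_iff₀ hA]
          have : 2 * A0 * k ≤ A * k := mul_le_mul_of_nonneg_right hA1 hk0.le
          linarith
  exact e1.trans (mul_le_mul_of_nonneg_left (e2.trans e3) (by positivity))

/-- the integrals -/
theorem int_bound {Q P1 P2 : ℝ → ℝ} {k : ℕ} {T L a1 a2 h1 h2 w b : ℝ}
    (hQc : Continuous Q) (hP1c : Continuous P1) (hP2c : Continuous P2)
    (hL : 100 ≤ L) (hLT : 100 * L ≤ T)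
    (ha1 : -1 ≤ a1) (ha1' : a1 ≤ 1) (ha2 : -1 ≤ a2) (ha2' : a2 ≤ 1)
    (hh1 : 0 ≤ h1) (hh1' : h1 ≤ 30) (hh2 : 0 ≤ h2) (hh2' : h2 ≤ 30)
    (hQ : ∀ V1 V2 : ℝ, T ≤ V1 → V1 ≤ V2 → V2 ≤ 2 * T →
      ∫ t in V1..V2, Q t ^ (2 * k) ≤ 6 * T * b)
    (hP1 : ∀ V1 V2 : ℝ, T ≤ V1 → V1 ≤ V2 → V2 ≤ 2 * T →
      w * ∫ t in V1..V2, P1 t ^ (2 * k) ≤ 4 * T * b)
    (hP2 : ∀ V1 V2 : ℝ, T ≤ V1 → V1 ≤ V2 → V2 ≤ 2 * T →
      w * ∫ t in V1..V2, P2 t ^ (2 * k) ≤ 4 * T * b) :
    ∫ t in (T + 2 * L)..(2 * T - 2 * L),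
      ((Q (t + a1) ^ (2 * k) + Q (t + (a1 + h1)) ^ (2 * k) + w * P1 (t + a1) ^ (2 * k)) +
      (Q (t + a2) ^ (2 * k) + Q (t + (a2 + h2)) ^ (2 * k) + w * P2 (t + a2) ^ (2 * k)) +
      Q t ^ (2 * k)) ≤ 38 * T * b := by
  have hQint : ∀ a : ℝ, -1 ≤ a → a ≤ 31 →
      ∫ t in (T + 2 * L)..(2 * T - 2 * L), Q (t + a) ^ (2 * k) ≤ 6 * T * b := by
    intro a ha ha'
    rw [int_shift (F := fun t => Q t ^ (2 * k)) (T + 2 * L) (2 * T - 2 * L) a]
    exact hQ _ _ (by linarith) (by linarith) (by linarith)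
  have hPint : ∀ P : ℝ → ℝ, (∀ V1 V2 : ℝ, T ≤ V1 → V1 ≤ V2 → V2 ≤ 2 * T →
      w * ∫ t in V1..V2, P t ^ (2 * k) ≤ 4 * T * b) → ∀ a : ℝ, -1 ≤ a → a ≤ 31 →
      ∫ t in (T + 2 * L)..(2 * T - 2 * L), w * P (t + a) ^ (2 * k) ≤ 4 * T * b := by
    intro P hP a ha ha'
    rw [intervalIntegral.integral_const_mul,
      int_shift (F := fun t => P t ^ (2 * k)) (T + 2 * L) (2 * T - 2 * L) a]
    exact hP _ _ (by linarith) (by linarith) (by linarith)
  have cQ : ∀ a : ℝ, Continuous fun t => Q (t + a) ^ (2 * k) := fun a =>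
    (hQc.comp (by fun_prop)).pow _
  have cP1 : ∀ a : ℝ, Continuous fun t => w * P1 (t + a) ^ (2 * k) := fun a =>
    continuous_const.mul ((hP1c.comp (by fun_prop)).pow _)
  have cP2 : ∀ a : ℝ, Continuous fun t => w * P2 (t + a) ^ (2 * k) := fun a =>
    continuous_const.mul ((hP2c.comp (by fun_prop)).pow _)
  have c1 : Continuous fun t => Q (t + a1) ^ (2 * k) + Q (t + (a1 + h1)) ^ (2 * k) :=
    (cQ a1).add (cQ (a1 + h1))
  have c2 : Continuous fun t => Q (t + a2) ^ (2 * k) + Q (t + (a2 + h2)) ^ (2 * k) :=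
    (cQ a2).add (cQ (a2 + h2))
  have d1 : Continuous fun t => Q (t + a1) ^ (2 * k) + Q (t + (a1 + h1)) ^ (2 * k) +
      w * P1 (t + a1) ^ (2 * k) := c1.add (cP1 a1)
  have d2 : Continuous fun t => Q (t + a2) ^ (2 * k) + Q (t + (a2 + h2)) ^ (2 * k) +
      w * P2 (t + a2) ^ (2 * k) := c2.add (cP2 a2)
  have d3 : Continuous fun t => (Q (t + a1) ^ (2 * k) + Q (t + (a1 + h1)) ^ (2 * k) +
      w * P1 (t + a1) ^ (2 * k)) + (Q (t + a2) ^ (2 * k) + Q (t + (a2 + h2)) ^ (2 * k) +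
      w * P2 (t + a2) ^ (2 * k)) := d1.add d2
  have d4 : Continuous fun t => Q t ^ (2 * k) := hQc.pow _
  rw [intervalIntegral.integral_add (d3.intervalIntegrable _ _) (d4.intervalIntegrable _ _),
    intervalIntegral.integral_add (d1.intervalIntegrable _ _) (d2.intervalIntegrable _ _),
    intervalIntegral.integral_add (c1.intervalIntegrable _ _) ((cP1 a1).intervalIntegrable _ _),
    intervalIntegral.integral_add (c2.intervalIntegrable _ _) ((cP2 a2).intervalIntegrable _ _),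
    intervalIntegral.integral_add ((cQ a1).intervalIntegrable _ _)
      ((cQ (a1 + h1)).intervalIntegrable _ _),
    intervalIntegral.integral_add ((cQ a2).intervalIntegrable _ _)
      ((cQ (a2 + h2)).intervalIntegrable _ _)]
  have i1 := hQint a1 ha1 (by linarith)
  have i2 := hQint (a1 + h1) (by linarith) (by linarith)
  have i3 := hPint P1 hP1 a1 ha1 (by linarith)
  have i4 := hQint a2 ha2 (by linarith)
  have i5 := hQint (a2 + h2) (by linarith) (by linarith)
  have i6 := hPint P2 hP2 a2 ha2 (by linarith)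
  have i7 := hQ (T + 2 * L) (2 * T - 2 * L) (by linarith) (by linarith) (by linarith)
  linarith

end Rig
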