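import Pool.Agent.W197.Rig.F2
import Pool.Agent.H345R2.CT.C

/-! # Sums of consecutive unfolded gaps: blocks -/

open Complex Filter Topology Set MeasureTheory

namespace Rig

open SG (phi hh nn dd dl ord NZ zmult)
open SP LG
open LG.CU (del)

/-- a priori bound for the sum of `m` gaps -/
theorem apriori {A c1 T0 : ℝ} (hA : 1 ≤ A) (hc1 : 0 < c1) (hT0 : 100 ≤ T0)
    (hb : ∀ T : ℝ, T0 ≤ T →
      ∀ m : ℕ, 1 ≤ m → (m : ℝ) ≤ 3 * Real.log T → ∀ lam : ℝ, A * Real.log (m + 1) ≤ lam →
      lam ≤ c1 * Real.log T → ∀ N : Finset ℕ,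
      (∀ n ∈ N, 1 ≤ n ∧ T + 3 * Real.log T ≤ ord n ∧ ord n ≤ 2 * T - 3 * Real.log T ∧
        lam ≤ |(ord (n + m) - ord n) * Real.log T / (2 * Real.pi) - m|) →
      (N.card : ℝ) ≤ T * Real.log T * (A * Real.log (m + 1) / lam) ^ (lam / A)) :
    ∃ T1 : ℝ, T0 ≤ T1 ∧ ∀ T : ℝ, T1 ≤ T → ∀ m n : ℕ, 1 ≤ m → (m : ℝ) ≤ 3 * Real.log T →
      1 ≤ n → T + 3 * Real.log T ≤ ord n → ord n ≤ 2 * T - 3 * Real.log T →
      |(ord (n + m) - ord n) * Real.log T / (2 * Real.pi) - m| < c1 * Real.log T := by
  -- the base tends to zero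
  have hlim : Tendsto (fun L : ℝ => A * Real.log (3 * L + 1) / (c1 * L)) atTop (𝓝 0) := by
    have h1 : Tendsto (fun x : ℝ => Real.log x / x) atTop (𝓝 0) := by
      have := Real.isLittleO_log_id_atTop.tendsto_div_nhds_zero
      simpa using this
    have h2 : Tendsto (fun L : ℝ => 3 * L + 1) atTop atTop :=
      tendsto_atTop_add_const_right _ _ (tendsto_id.const_mul_atTop (by norm_num))
    have h3 := h1.comp h2
    have h4 : Tendsto (fun L : ℝ => (A / c1) * (3 + 1 / L)) atTop (𝓝 ((A / c1) * (3 + 0))) := by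
      apply Tendsto.const_mul
      apply Tendsto.const_add
      exact tendsto_const_nhds.div_atTop tendsto_id
    have h5 := h4.mul h3
    rw [mul_zero] at h5
    refine h5.congr' ?_
    filter_upwards [eventually_gt_atTop 0] with L hL
    simp only [Function.comp]
    field_simp
  have hev := (hlim.comp Real.tendsto_log_atTop).eventually
    (gt_mem_nhds (Real.exp_pos (-(3 * A / c1))))
  obtain ⟨T2, hT2⟩ := hev.exists_forall_of_atTop
  refine ⟨max T0 T2, le_max_left _ _, fun T hT m n hm hm3 hn h1 h2 => ?_⟩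
  have hTT0 : T0 ≤ T := (le_max_left _ _).trans hT
  have hTT2 := hT2 T ((le_max_right _ _).trans hT)
  simp only [Function.comp] at hTT2
  have hT100 : 100 ≤ T := hT0.trans hTT0
  have hTpos : 0 < T := by linarith
  have hL : 0 < Real.log T := Real.log_pos (by linarith)
  by_contra hcon
  push Not at hcon
  have hm1 : (1 : ℝ) ≤ m := by exact_mod_cast hm
  have hq : Real.log (m + 1) ≤ Real.log (3 * Real.log T + 1) :=
    Real.log_le_log (by linarith) (by linarith)
  have hq0 : 0 < Real.log (m + 1) := Real.log_pos (by linarith)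
  have hbase : A * Real.log (m + 1) / (c1 * Real.log T) < Real.exp (-(3 * A / c1)) := by
    refine lt_of_le_of_lt ?_ hTT2
    apply div_le_div_of_nonneg_right _ (by positivity)
    exact mul_le_mul_of_nonneg_left hq (by linarith)
  have hbase1 : Real.exp (-(3 * A / c1)) ≤ 1 := by
    rw [Real.exp_le_one_iff]
    have : 0 ≤ 3 * A / c1 := by positivity
    linarith
  have hle : A * Real.log (m + 1) ≤ c1 * Real.log T := by
    have h3 := hbase.le.trans hbase1
    rwa [div_le_one (by positivity)] at h3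
  have h3 := hb T hTT0 m hm hm3 (c1 * Real.log T) hle le_rfl {n} (by
    intro n' hn'
    rw [Finset.mem_singleton] at hn'
    subst hn'
    exact ⟨hn, h1, h2, hcon⟩)
  rw [Finset.card_singleton, Nat.cast_one] at h3
  have h4 : (A * Real.log (m + 1) / (c1 * Real.log T)) ^ (c1 * Real.log T / A) ≤
      (Real.exp (-(3 * A / c1))) ^ (c1 * Real.log T / A) :=
    Real.rpow_le_rpow (by positivity) hbase.le (by positivity)
  have h5 : (Real.exp (-(3 * A / c1))) ^ (c1 * Real.log T / A) = 1 / T ^ 3 := by
    rw [← Real.exp_mul]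
    have e1 : -(3 * A / c1) * (c1 * Real.log T / A) = -(3 * Real.log T) := by
      field_simp
    rw [e1, Real.exp_neg, show 3 * Real.log T = Real.log T * (3 : ℕ) by push_cast; ring,
      Real.exp_mul, Real.exp_log hTpos, one_div, Real.rpow_natCast]
  rw [h5] at h4
  have h6 : Real.log T ≤ T := (Real.log_le_sub_one_of_pos hTpos).trans (by linarith)
  have h7 : T * Real.log T * (A * Real.log (m + 1) / (c1 * Real.log T)) ^ (c1 * Real.log T / A) ≤
      T * T * (1 / T ^ 3) := by
    apply mul_le_mul _ h4 (by positivity) (by positivity)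
    exact mul_le_mul_of_nonneg_left h6 hTpos.le
  have h8 : T * T * (1 / T ^ 3) = 1 / T := by field_simp
  have h9 : 1 / T < 1 := by
    rw [div_lt_one hTpos]
    linarith
  linarith

/-- comparison of the sum of the unfolded gaps with the difference of the ordinates -/
theorem conv {T : ℝ} {n m : ℕ} (hT : 100 ≤ T) (hL : 100 ≤ Real.log T) (hn : 1 ≤ n)
    (hm3 : (m : ℝ) ≤ 3 * Real.log T) (h1 : T ≤ ord n) (h2 : ord n ≤ 2 * T - 3 * Real.log T)
    (h3 : |(ord (n + m) - ord n) * Real.log T / (2 * Real.pi) - m| < Real.log T) :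
    |∑ i ∈ Finset.range m, del (n + i) -
      (ord (n + m) - ord n) * Real.log T / (2 * Real.pi)| ≤ 8 := by
  have hpi := Real.pi_pos
  have hpi3 := Real.pi_gt_three
  have hpi4 := Real.pi_lt_four
  set L := Real.log T with hLd
  have hL0 : 0 < L := by linarith
  have hTpos : 0 < T := by linarith
  have hge : ∀ i : ℕ, ord n ≤ ord (n + i) := fun i => SG.ord_mono hn (by omega)
  set D := (ord (n + m) - ord n) * L / (2 * Real.pi) with hD
  have hD4 : D ≤ 4 * L := by
    have := (abs_lt.1 h3).2
    linarith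
  have hdiff : ord (n + m) - ord n ≤ 32 := by
    rw [hD, div_le_iff₀ (by positivity)] at hD4
    have e1 : 4 * L * (2 * Real.pi) ≤ 32 * L := by nlinarith
    exact le_of_mul_le_mul_right (hD4.trans e1) hL0
  have hup : ord (n + m) ≤ 2 * T := by linarith
  have hterm : ∀ i ∈ Finset.range m,
      (ord (n + (i + 1)) - ord (n + i)) * (L - 2) / (2 * Real.pi) ≤ del (n + i) ∧
      del (n + i) ≤ (ord (n + (i + 1)) - ord (n + i)) * L / (2 * Real.pi) := by
    intro i hi
    rw [Finset.mem_range] at hi
    have g1 : ord (n + i) ≤ ord (n + (i + 1)) := SG.ord_mono (by omega) (by omega)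
    have g2 : ord (n + i) ≤ ord (n + m) := SG.ord_mono (by omega) (by omega)
    have g3 := hge i
    have g4 : 0 < ord (n + i) := by linarith
    have g5 : L - 2 ≤ Real.log (ord (n + i) / (2 * Real.pi)) := by
      rw [Real.log_div g4.ne' (by positivity)]
      have h16 : Real.log (2 * Real.pi) ≤ 2 := by
        rw [Real.log_le_iff_le_exp (by positivity)]
        have e1 : Real.exp 2 = Real.exp 1 ^ 2 := by rw [← Real.exp_nat_mul]; norm_num
        have e2 := Real.exp_one_gt_d9
        have e3 : (2.7182818283 : ℝ) ^ 2 ≤ Real.exp 1 ^ 2 :=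
          pow_le_pow_left₀ (by norm_num) e2.le 2
        rw [e1]
        have := Real.pi_lt_d2
        norm_num at e3
        linarith
      have h17 : L ≤ Real.log (ord (n + i)) := Real.log_le_log hTpos (by linarith)
      linarith
    have g6 : Real.log (ord (n + i) / (2 * Real.pi)) ≤ L := by
      apply Real.log_le_log (by positivity)
      rw [div_le_iff₀ (by positivity)]
      nlinarith
    have g7 : 0 ≤ (ord (n + (i + 1)) - ord (n + i)) / (2 * Real.pi) :=
      div_nonneg (by linarith) (by positivity)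
    have e1 : del (n + i) = (ord (n + (i + 1)) - ord (n + i)) / (2 * Real.pi) *
        Real.log (ord (n + i) / (2 * Real.pi)) := rfl
    rw [e1, mul_div_right_comm, mul_div_right_comm]
    exact ⟨mul_le_mul_of_nonneg_left g5 g7, mul_le_mul_of_nonneg_left g6 g7⟩
  have htel : ∀ w : ℝ, ∑ i ∈ Finset.range m,
      (ord (n + (i + 1)) - ord (n + i)) * w / (2 * Real.pi) =
      (ord (n + m) - ord n) * w / (2 * Real.pi) := by
    intro w
    rw [← Finset.sum_div, ← Finset.sum_mul]
    congr 2
    have := Finset.sum_range_sub (fun i => ord (n + i)) m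
    simpa using this
  have hs1 := Finset.sum_le_sum fun i hi => (hterm i hi).1
  have hs2 := Finset.sum_le_sum fun i hi => (hterm i hi).2
  rw [htel] at hs1 hs2
  have e2 : (ord (n + m) - ord n) * (L - 2) / (2 * Real.pi) = D - 2 * (D / L) := by
    rw [hD]
    field_simp
  have e3 : D / L ≤ 4 := by
    rw [div_le_iff₀ hL0]
    exact hD4
  rw [e2] at hs1
  rw [abs_le]
  constructor <;> linarith

end Rig
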