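import Pool.Agent.W197.Rig.G

/-! # Sums of consecutive unfolded gaps: the block estimate -/

open Complex Filter Topology Set MeasureTheory

namespace Rig

open SG (phi hh nn dd dl ord NZ zmult)
open SP LG
open LG.CU (del)

/-- from the power to the exponential -/
theorem pow_to_exp {A q lam : ℝ} (hA : 1 ≤ A) (hq : 0 < q) (hlam : 4 * A ^ 2 * q ≤ lam) :
    (A * q / (lam / 2)) ^ (lam / 2 / A) ≤ Real.exp (-(lam * Real.log (lam / q) / (4 * A))) := by
  have hlam0 : 0 < lam := lt_of_lt_of_le (by positivity) hlam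
  have h0 : 0 < A * q / (lam / 2) := by positivity
  rw [Real.rpow_def_of_pos h0]
  apply Real.exp_le_exp.2
  have h1 : Real.log (A * q / (lam / 2)) ≤ -(1 / 2) * Real.log (lam / q) := by
    have h2 : (A * q / (lam / 2)) ^ 2 ≤ (lam / q)⁻¹ := by
      rw [inv_div, div_pow, div_le_div_iff₀ (by positivity) hlam0]
      have h3 : (A * q) ^ 2 * lam = (4 * A ^ 2 * q) * (q * (lam / 4)) := by ring
      have h4 : q * (lam / 2) ^ 2 = lam * (q * (lam / 4)) := by ring
      rw [h3, h4]
      exact mul_le_mul_of_nonneg_right hlam (by positivity)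
    have h3 := Real.log_le_log (by positivity) h2
    rw [Real.log_pow, Real.log_inv] at h3
    push_cast at h3
    linarith
  have h2 := mul_le_mul_of_nonneg_right h1 (by positivity : 0 ≤ lam / 2 / A)
  refine h2.trans (le_of_eq ?_)
  field_simp
  ring

/-- `Φ n m` is within `12` of the scaled distance of the ordinates `n` and `n + m` -/
def Close (Φ : ℕ → ℕ → ℝ) : Prop := ∀ (T : ℝ) (n m : ℕ), 100 ≤ T → 100 ≤ Real.log T → 1 ≤ n →
  (m : ℝ) ≤ 3 * Real.log T → T ≤ ord n → ord n ≤ 2 * T - 3 * Real.log T →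
  |(ord (n + m) - ord n) * Real.log T / (2 * Real.pi) - m| < Real.log T →
  |Φ n m - (ord (n + m) - ord n) * Real.log T / (2 * Real.pi)| ≤ 12

/-- the block estimate -/
theorem block2 (hRH : RHs) (Φ : ℕ → ℕ → ℝ) (hΦ : Close Φ) :
    ∃ A T1 : ℝ, 1 ≤ A ∧ 10 ≤ T1 ∧ ∀ m : ℕ, 1 ≤ m → ∀ lam : ℝ,
    48 * A ^ 2 * Real.log (m + 1) ≤ lam → ∀ T : ℝ, T1 ≤ T →
    ({n : ℕ | 1 ≤ n ∧ T ≤ ord n ∧ ord n ≤ 3 / 2 * T ∧ ((m : ℝ) ≤ Real.log n ∧
        lam ≤ |Φ n m - m|)}.ncard : ℝ) ≤
      6 * Real.exp (-(lam * Real.log (lam / Real.log (m + 1)) / (4 * A))) * (T * Real.log T) := by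
  classical
  obtain ⟨A, c1, T0, hA, hc1, hT0, hb⟩ := block hRH
  obtain ⟨T2, hT2, hap⟩ := apriori hA (lt_min hc1 one_pos) hT0
    (fun T hT m hm hm3 lam h1 h2 N hN => hb T hT m hm hm3 lam h1 (h2.trans
      (mul_le_mul_of_nonneg_right (min_le_left _ _) (Real.log_nonneg (by linarith)))) N hN)
  obtain ⟨CZ, TZ, hCZ, hTZ, hNZ⟩ := GapAux.NZ_up
  obtain ⟨TL, hTL, hlog⟩ := CTAux.log_ev 200
  refine ⟨A, max (max (2 * T2) (2 * TZ)) (max TL (3 * CZ)), hA, ?_, ?_⟩
  · exact le_trans (by linarith) ((le_max_left _ _).trans (le_max_right _ _))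
  intro m hm lam hlam T hT
  have hTT2 : 2 * T2 ≤ T := ((le_max_left _ _).trans (le_max_left _ _)).trans hT
  have hTTZ : 2 * TZ ≤ T := ((le_max_right _ _).trans (le_max_left _ _)).trans hT
  have hTL' : TL ≤ T := ((le_max_left _ _).trans (le_max_right _ _)).trans hT
  have hTC : 3 * CZ ≤ T := ((le_max_right _ _).trans (le_max_right _ _)).trans hT
  obtain ⟨hL4, hLT⟩ := hlog T hTL'
  have hT200 : 200 ≤ T := by linarith
  have hTpos : 0 < T := by linarith
  obtain ⟨L, hLd⟩ : ∃ L : ℝ, L = Real.log T := ⟨_, rfl⟩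
  rw [← hLd] at hL4 hLT ⊢
  have hm1 : (1 : ℝ) ≤ m := by exact_mod_cast hm
  have hq1 := log_add_one hm
  obtain ⟨q, hq⟩ : ∃ q : ℝ, q = Real.log (m + 1) := ⟨_, rfl⟩
  rw [← hq] at hq1 hlam ⊢
  have hq0 : 0 < q := by linarith
  have hA2 : A ≤ A ^ 2 := by nlinarith
  have hA21 : 1 ≤ A ^ 2 := by linarith
  have hlam24 : 24 ≤ lam := by
    have : 48 * A ^ 2 * q ≥ 48 * 1 * q := by
      apply mul_le_mul_of_nonneg_right _ hq0.le
      linarith
    linarith
  have hlam4 : 4 * A ^ 2 * q ≤ lam := by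
    have : 4 * A ^ 2 * q ≤ 48 * A ^ 2 * q := by
      apply mul_le_mul_of_nonneg_right _ hq0.le
      linarith
    linarith
  have hlamA : A * q ≤ lam / 2 := by
    have : A * q ≤ A ^ 2 * q := mul_le_mul_of_nonneg_right hA2 hq0.le
    linarith
  set S := {n : ℕ | 1 ≤ n ∧ T ≤ ord n ∧ ord n ≤ 3 / 2 * T ∧ ((m : ℝ) ≤ Real.log n ∧
        lam ≤ |Φ n m - m|)} with hS
  have hSfin : S.Finite := GapAux.fin_ord (3 / 2 * T) S fun n hn => ⟨hn.1, hn.2.2.1⟩
  obtain ⟨X, hX⟩ : ∃ X : ℝ, X = Real.exp (-(lam * Real.log (lam / q) / (4 * A))) := ⟨_, rfl⟩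
  have hX0 : 0 < X := by rw [hX]; exact Real.exp_pos _
  rw [← hX]
  -- block bound
  have key : ∀ r : ℝ, 7 / 10 ≤ r → r ≤ 13 / 10 → ∀ F : Finset ℕ,
      (∀ n ∈ F, n ∈ S ∧ r * T + 3 * Real.log (r * T) ≤ ord n ∧
        ord n ≤ 2 * (r * T) - 3 * Real.log (r * T)) →
      (F.card : ℝ) ≤ 26 / 10 * X * (T * L) := by
    intro r hr1 hr2 F hF
    have hrTl : 7 / 10 * T ≤ r * T := mul_le_mul_of_nonneg_right hr1 hTpos.le
    have hrTu : r * T ≤ 13 / 10 * T := mul_le_mul_of_nonneg_right hr2 hTpos.le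
    have hrT2 : T2 ≤ r * T := by linarith
    have hrT0' : T0 ≤ r * T := hT2.trans hrT2
    have hrTZ : TZ ≤ r * T := by linarith
    have hrT1 : 100 ≤ r * T := by linarith
    have hrT0 : 0 < r * T := by linarith
    have hrC : CZ ≤ r * T := by linarith
    obtain ⟨T', hT'⟩ : ∃ T' : ℝ, T' = r * T := ⟨_, rfl⟩
    rw [← hT'] at hF hrTl hrTu hrT2 hrT0' hrTZ hrT1 hrT0 hrC
    have hlog2 : Real.log T' ≤ 2 * L := by
      have h1 : T' ≤ T ^ 2 := by nlinarith
      have h2 := Real.log_le_log hrT0 h1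
      rw [Real.log_pow, ← hLd] at h2
      push_cast at h2
      exact h2
    have hlog1 : 100 ≤ Real.log T' := by
      have h1 : T ≤ T' ^ 2 := by nlinarith
      have h2 := Real.log_le_log hTpos h1
      rw [Real.log_pow, ← hLd] at h2
      push_cast at h2
      linarith
    have hmem : ∀ n ∈ F, (m : ℝ) ≤ 3 * Real.log T' ∧
        lam / 2 ≤ |(ord (n + m) - ord n) * Real.log T' / (2 * Real.pi) - m| ∧
        |(ord (n + m) - ord n) * Real.log T' / (2 * Real.pi) - m| < c1 * Real.log T' := by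
      intro n hn
      obtain ⟨⟨a1, a2, a3, a4, a5⟩, a6, a7⟩ := hF n hn
      have b1 : (m : ℝ) ≤ 3 * Real.log T' := by
        have h1 : ord n ≤ 2 * T' := by linarith
        have h2 := (SG.ord_le_iff a1 (2 * T')).1 h1
        have h3 := hNZ T' hrTZ
        have h4 : (n : ℝ) ≤ CZ * (T' * Real.log T') := by
          have : (n : ℝ) ≤ NZ (2 * T') := by exact_mod_cast h2
          linarith
        have h5 : (n : ℝ) ≤ T' ^ 3 := by
          have h6 : Real.log T' ≤ T' := (Real.log_le_sub_one_of_pos hrT0).trans (by linarith)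
          calc (n : ℝ) ≤ CZ * (T' * Real.log T') := h4
            _ ≤ T' * (T' * T') := by
                apply mul_le_mul hrC _ (by positivity) hrT0.le
                exact mul_le_mul_of_nonneg_left h6 hrT0.le
            _ = T' ^ 3 := by ring
        have hn0 : (0 : ℝ) < n := by exact_mod_cast a1
        have h6 := Real.log_le_log hn0 h5
        rw [Real.log_pow] at h6
        push_cast at h6
        linarith
      have b2 := hap T' hrT2 m n hm b1 a1 a6 a7
      have hmin1 : min c1 1 * Real.log T' ≤ c1 * Real.log T' :=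
        mul_le_mul_of_nonneg_right (min_le_left _ _) (by linarith)
      have hmin2 : min c1 1 * Real.log T' ≤ 1 * Real.log T' :=
        mul_le_mul_of_nonneg_right (min_le_right _ _) (by linarith)
      have b3 := hΦ T' n m hrT1 hlog1 a1 b1 (by linarith) a7 (by linarith)
      refine ⟨b1, ?_, by linarith⟩
      have b4 : |Φ n m - m| ≤
          |Φ n m -
            (ord (n + m) - ord n) * Real.log T' / (2 * Real.pi)| +
          |(ord (n + m) - ord n) * Real.log T' / (2 * Real.pi) - m| := by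
        have := abs_add_le (Φ n m -
            (ord (n + m) - ord n) * Real.log T' / (2 * Real.pi))
            ((ord (n + m) - ord n) * Real.log T' / (2 * Real.pi) - m)
        rwa [sub_add_sub_cancel] at this
      linarith
    by_cases hne : F.Nonempty
    · obtain ⟨n1, hn1⟩ := hne
      obtain ⟨c1', c2', c3'⟩ := hmem n1 hn1
      have h1 := hb T' hrT0' m hm c1' (lam / 2) (by rw [← hq]; exact hlamA)
        (c2'.trans c3'.le) F (by
        intro n hn
        obtain ⟨⟨a1, a2, a3, a4⟩, a5, a6⟩ := hF n hn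
        exact ⟨a1, a5, a6, (hmem n hn).2.1⟩)
      rw [← hq] at h1
      refine h1.trans ?_
      have h2 : T' * Real.log T' ≤ 13 / 10 * T * (2 * L) := by
        apply mul_le_mul hrTu hlog2 (by linarith) (by positivity)
      have h3 := pow_to_exp hA hq0 hlam4
      rw [← hX] at h3
      calc T' * Real.log T' * (A * q / (lam / 2)) ^ (lam / 2 / A)
          ≤ 13 / 10 * T * (2 * L) * X := by
            apply mul_le_mul h2 h3 (by positivity) (by positivity)
        _ = _ := by ring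
    · rw [Finset.not_nonempty_iff_eq_empty] at hne
      rw [hne, Finset.card_empty]
      have : 0 ≤ T * L := by positivity
      simp only [Nat.cast_zero]
      positivity
  -- split
  set F1 : Finset ℕ := hSfin.toFinset.filter
    (fun n => ord n ≤ 2 * (7 / 10 * T) - 3 * Real.log (7 / 10 * T)) with hF1
  set F2 : Finset ℕ := hSfin.toFinset.filter
    (fun n => ¬ (ord n ≤ 2 * (7 / 10 * T) - 3 * Real.log (7 / 10 * T))) with hF2
  have hcard : S.ncard = F1.card + F2.card := by
    rw [Set.ncard_eq_toFinset_card S hSfin, hF1, hF2, Finset.card_filter_add_card_filter_not]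
  have hlog7 : Real.log (7 / 10 * T) ≤ L := by
    rw [hLd]
    exact Real.log_le_log (by positivity) (by linarith)
  have hlog13 : Real.log (13 / 10 * T) ≤ L + 1 := by
    rw [Real.log_mul (by norm_num) hTpos.ne', ← hLd]
    have := Real.log_le_sub_one_of_pos (show (0 : ℝ) < 13 / 10 by norm_num)
    linarith
  have hb1 : (F1.card : ℝ) ≤ 26 / 10 * X * (T * L) := by
    apply key (7 / 10) le_rfl (by norm_num)
    intro n hn
    rw [hF1, Finset.mem_filter, Set.Finite.mem_toFinset] at hn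
    obtain ⟨⟨a1, a2, a3, a4⟩, a5⟩ := hn
    exact ⟨⟨a1, a2, a3, a4⟩, by linarith, a5⟩
  have hb2 : (F2.card : ℝ) ≤ 26 / 10 * X * (T * L) := by
    apply key (13 / 10) (by norm_num) le_rfl
    intro n hn
    rw [hF2, Finset.mem_filter, Set.Finite.mem_toFinset] at hn
    obtain ⟨⟨a1, a2, a3, a4⟩, a5⟩ := hn
    push Not at a5
    exact ⟨⟨a1, a2, a3, a4⟩, by linarith, by linarith⟩
  rw [hcard]
  push_cast
  have : 0 ≤ X * (T * L) := by positivity
  linarith

end Rig
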