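import Pool.Agent.W197.Rig.G2

/-! # Rigidity of the sums of consecutive unfolded gaps -/

open Complex Filter Topology Set MeasureTheory

namespace Rig

open SG (phi hh nn dd dl ord NZ zmult)
open SP LG
open LG.CU (del)

open GapAux in
theorem rigid (hRH : RHs) (Φ : ℕ → ℕ → ℝ) (hΦ : Close Φ) : ∃ c C : ℝ, 0 < c ∧ 1 ≤ C ∧ ∀ N m : ℕ, 1 ≤ m → ∀ lam : ℝ,
    C * Real.log (m + 1) ≤ lam →
    ({n : ℕ | 1 ≤ n ∧ n ≤ N ∧ (m : ℝ) ≤ Real.log n ∧
        lam ≤ |Φ n m - m|}.ncard : ℝ) ≤
      N * Real.exp (-(c * lam * Real.log (lam / Real.log (m + 1)))) := by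
  obtain ⟨A, T1, hA, hT1, hblock⟩ := block2 hRH Φ hΦ
  obtain ⟨c1, T2, hc1, hT2, hlow⟩ := NZ_low
  set T3 : ℝ := max (2 * T1) (3 * T2 + 3) with hT3
  have hT31 : 2 * T1 ≤ T3 := le_max_left _ _
  have hT32 : 3 * T2 + 3 ≤ T3 := le_max_right _ _
  -- small indices
  set n3 : ℕ := NZ T3 + 1 with hn3
  set M : ℝ := ∑ n ∈ Finset.Icc 1 n3, ∑ m ∈ Finset.range (n3 + 1), |Φ n m - m| with hM
  have hM0 : 0 ≤ M := Finset.sum_nonneg fun n _ => Finset.sum_nonneg fun m _ => abs_nonneg _
  set K1 : ℝ := 18 * (3 * (2 / c1)) with hK1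
  have hK1pos : 0 < K1 := by positivity
  set C : ℝ := max (max (48 * A ^ 2) (2 * (M + 1))) (max (16 * A * |Real.log K1|) 3) with hC
  have hC1 : 48 * A ^ 2 ≤ C := (le_max_left _ _).trans (le_max_left _ _)
  have hC2 : 2 * (M + 1) ≤ C := (le_max_right _ _).trans (le_max_left _ _)
  have hC3 : 16 * A * |Real.log K1| ≤ C := (le_max_left _ _).trans (le_max_right _ _)
  have hC4 : 3 ≤ C := (le_max_right _ _).trans (le_max_right _ _)
  refine ⟨1 / (8 * A), C, by positivity, by linarith, fun N m hm lam hlam => ?_⟩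
  have hq1 := log_add_one hm
  obtain ⟨q, hq⟩ : ∃ q : ℝ, q = Real.log (m + 1) := ⟨_, rfl⟩
  rw [← hq] at hq1 hlam ⊢
  have hq0 : 0 < q := by linarith
  have hlamC : C / 2 ≤ lam := by
    have : C * 1 ≤ C * (2 * q) := mul_le_mul_of_nonneg_left hq1 (by linarith)
    linarith
  have hlam0 : 0 < lam := by linarith
  have hlamA : 48 * A ^ 2 * q ≤ lam := (mul_le_mul_of_nonneg_right hC1 hq0.le).trans hlam
  have hlamq : 3 ≤ lam / q := by
    rw [le_div_iff₀ hq0]
    exact (mul_le_mul_of_nonneg_right hC4 hq0.le).trans hlam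
  have hlg : 1 ≤ Real.log (lam / q) := by
    rw [Real.le_log_iff_exp_le (by linarith)]
    have := Real.exp_one_lt_d9
    linarith
  set Y : ℝ := ord N with hYdef
  set S : Set ℕ := {n : ℕ | 1 ≤ n ∧ n ≤ N ∧ (m : ℝ) ≤ Real.log n ∧
        lam ≤ |Φ n m - m|} with hS
  -- members of `S` have large ordinates
  have hbig : ∀ n ∈ S, T3 < ord n := by
    rintro n ⟨a1, a2, a3, a4⟩
    by_contra hcon
    push Not at hcon
    have h1 : n ≤ NZ T3 := (SG.ord_le_iff a1 T3).mp hcon
    have hn0 : (0 : ℝ) < n := by exact_mod_cast a1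
    have h2 : (m : ℝ) ≤ n := a3.trans ((Real.log_le_sub_one_of_pos hn0).trans (by linarith))
    have h3 : m ≤ n := by exact_mod_cast h2
    have h4 : |Φ n m - m| ≤ M := by
      have h5 : |Φ n m - m| ≤ ∑ m ∈ Finset.range (n3 + 1),
          |Φ n m - m| :=
        Finset.single_le_sum (f := fun m : ℕ => |Φ n m - m|)
          (fun i _ => abs_nonneg _) (Finset.mem_range.2 (by omega))
      refine h5.trans ?_
      exact Finset.single_le_sum (f := fun n => ∑ m ∈ Finset.range (n3 + 1),
          |Φ n m - m|)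
          (fun i _ => Finset.sum_nonneg fun m _ => abs_nonneg _)
          (Finset.mem_Icc.2 ⟨a1, by omega⟩)
    linarith
  have hRpos : 0 ≤ (N : ℝ) * Real.exp (-(1 / (8 * A) * lam * Real.log (lam / q))) := by positivity
  by_cases hYT : Y ≤ T3 ∨ N = 0
  · have hemp : S = ∅ := by
      rw [Set.eq_empty_iff_forall_notMem]
      intro n hn
      have h1 := hbig n hn
      rcases hYT with hYT | hYT
      · have h2 : ord n ≤ Y := SG.ord_mono hn.1 hn.2.1
        linarith
      · have h3 := hn.1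
        have h4 := hn.2.1
        omega
    rw [hemp, Set.ncard_empty]
    simpa using hRpos
  · push Not at hYT
    obtain ⟨hYT, hN0⟩ := hYT
    have hN : 1 ≤ N := by omega
    have hYpos : 0 < Y := by linarith
    obtain ⟨X, hX⟩ : ∃ X : ℝ, X = Real.exp (-(lam * Real.log (lam / q) / (4 * A))) := ⟨_, rfl⟩
    have hX0 : 0 < X := by rw [hX]; exact Real.exp_pos _
    have h1 := LG.CU.sum_blocks (fun n => (m : ℝ) ≤ Real.log n ∧
      lam ≤ |Φ n m - m|) (6 * X) T1 (by positivity) hT1
      (fun T hT => by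
        have := hblock m hm lam (by rw [← hq]; exact hlamA) T hT
        rw [← hq, ← hX] at this
        exact this) T3 hT31 Y (by linarith)
    have hsub : S ⊆ {n : ℕ | 1 ≤ n ∧ T3 < ord n ∧ ord n ≤ Y ∧ ((m : ℝ) ≤ Real.log n ∧
        lam ≤ |Φ n m - m|)} := by
      intro n hn
      exact ⟨hn.1, hbig n hn, SG.ord_mono hn.1 hn.2.1, hn.2.2.1, hn.2.2.2⟩
    have hfin : {n : ℕ | 1 ≤ n ∧ T3 < ord n ∧ ord n ≤ Y ∧ ((m : ℝ) ≤ Real.log n ∧
        lam ≤ |Φ n m - m|)}.Finite :=
      fin_ord Y _ (fun n hn => ⟨hn.1, hn.2.2.1⟩)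
    have h2 : (S.ncard : ℝ) ≤ 3 * (6 * X) * (Y * Real.log Y) := by
      refine le_trans ?_ h1
      exact_mod_cast Set.ncard_le_ncard hsub hfin
    -- `N` against `Y log Y`
    have h3 := hlow (Y / 3) (by linarith)
    have h4 : NZ (2 * (Y / 3)) < N := by
      by_contra hcon
      push Not at hcon
      have h5 : ord N ≤ 2 * (Y / 3) := (SG.ord_le_iff hN _).mpr hcon
      rw [← hYdef] at h5
      linarith
    have h5 : (NZ (2 * (Y / 3)) : ℝ) ≤ N := by exact_mod_cast h4.le
    have h6 : Real.log Y ≤ 2 * Real.log (Y / 3) := by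
      have h7 : Y ≤ (Y / 3) ^ 2 := by nlinarith
      have h8 := Real.log_le_log hYpos h7
      rw [Real.log_pow] at h8
      push_cast at h8
      exact h8
    have h9 : Y * Real.log Y ≤ 3 * (2 / c1) * N := by
      have h10 : c1 * (Y / 3 * Real.log (Y / 3)) ≤ N := h3.trans h5
      have h11 : Y * Real.log Y ≤ Y * (2 * Real.log (Y / 3)) := mul_le_mul_of_nonneg_left h6 hYpos.le
      have h12 : Y * (2 * Real.log (Y / 3)) = 3 * (2 / c1) * (c1 * (Y / 3 * Real.log (Y / 3))) := by
        field_simp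
      rw [h12] at h11
      refine h11.trans (mul_le_mul_of_nonneg_left h10 (by positivity))
    -- the exponential
    have h17 : K1 ≤ Real.exp (lam * Real.log (lam / q) / (8 * A)) := by
      rw [← Real.log_le_iff_le_exp hK1pos]
      have h18 : Real.log K1 ≤ lam / (8 * A) := by
        have h20 := le_abs_self (Real.log K1)
        rw [le_div_iff₀ (by positivity)]
        have h21 : Real.log K1 * (8 * A) ≤ |Real.log K1| * (8 * A) :=
          mul_le_mul_of_nonneg_right h20 (by positivity)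
        linarith
      have h21 : lam / (8 * A) * 1 ≤ lam / (8 * A) * Real.log (lam / q) :=
        mul_le_mul_of_nonneg_left hlg (by positivity)
      have h22 : lam / (8 * A) * Real.log (lam / q) = lam * Real.log (lam / q) / (8 * A) := by ring
      linarith
    calc (S.ncard : ℝ) ≤ 3 * (6 * X) * (Y * Real.log Y) := h2
      _ ≤ 3 * (6 * X) * (3 * (2 / c1) * N) :=
          mul_le_mul_of_nonneg_left h9 (by positivity)
      _ = N * (K1 * X) := by rw [hK1]; ring
      _ ≤ N * (Real.exp (lam * Real.log (lam / q) / (8 * A)) * X) := by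
          apply mul_le_mul_of_nonneg_left _ (Nat.cast_nonneg _)
          exact mul_le_mul_of_nonneg_right h17 hX0.le
      _ = N * Real.exp (-(1 / (8 * A) * lam * Real.log (lam / q))) := by
          rw [hX, ← Real.exp_add]
          congr 2
          field_simp
          ring

/-- the sum of the unfolded gaps -/
theorem close_del : Close fun n m => ∑ i ∈ Finset.range m, del (n + i) := by
  intro T n m h1 h2 h3 h4 h5 h6 h7
  exact (conv h1 h2 h3 h4 h5 h6 h7).trans (by norm_num)

/-- the difference of the normalised ordinates -/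
theorem close_log : Close fun n m =>
    (ord (n + m) * Real.log (ord (n + m)) - ord n * Real.log (ord n)) / (2 * Real.pi) := by
  intro T n m hT hL hn hm3 h1 h2 h3
  have hpi := Real.pi_pos
  have hpi3 := Real.pi_gt_three
  have hpi4 := Real.pi_lt_four
  obtain ⟨L, hLd⟩ : ∃ L : ℝ, L = Real.log T := ⟨_, rfl⟩
  rw [← hLd] at hL hm3 h2 h3 ⊢
  have hL0 : 0 < L := by linarith
  have hTpos : 0 < T := by linarith
  have hmono : ord n ≤ ord (n + m) := SG.ord_mono hn (by omega)
  have hD4 : (ord (n + m) - ord n) * L / (2 * Real.pi) ≤ 4 * L := by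
    have := (abs_lt.1 h3).2
    linarith
  have hdiff : ord (n + m) - ord n ≤ 32 := by
    rw [div_le_iff₀ (by positivity)] at hD4
    have e1 : 4 * L * (2 * Real.pi) ≤ 32 * L := by nlinarith
    exact le_of_mul_le_mul_right (hD4.trans e1) hL0
  have hup : ord (n + m) ≤ 2 * T := by linarith
  simp only
  obtain ⟨x, hx⟩ : ∃ x : ℝ, x = ord n := ⟨_, rfl⟩
  obtain ⟨y, hy⟩ : ∃ y : ℝ, y = ord (n + m) := ⟨_, rfl⟩
  rw [← hx, ← hy] at hmono hdiff ⊢
  rw [← hy] at hup
  rw [← hx] at h1
  have hx0 : 0 < x := by linarith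
  have hy0 : 0 < y := by linarith
  have hlx : L ≤ Real.log x := by rw [hLd]; exact Real.log_le_log hTpos h1
  have hly : Real.log y ≤ L + 1 := by
    have h4 := Real.log_le_log hy0 hup
    rw [Real.log_mul (by norm_num) hTpos.ne', ← hLd] at h4
    have := Real.log_two_lt_d9
    linarith
  have hxy : Real.log x ≤ Real.log y := Real.log_le_log hx0 hmono
  have hd0 : 0 ≤ y - x := by linarith
  -- `y log y - x log x = (y - x) log y + x (log y - log x)`
  have e1 : y * Real.log y - x * Real.log x =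
      (y - x) * Real.log y + x * (Real.log y - Real.log x) := by ring
  have e2 : 0 ≤ x * (Real.log y - Real.log x) := mul_nonneg hx0.le (by linarith)
  have e3 : x * (Real.log y - Real.log x) ≤ y - x := by
    have h5 : Real.log (y / x) ≤ y / x - 1 := Real.log_le_sub_one_of_pos (by positivity)
    rw [Real.log_div hy0.ne' hx0.ne'] at h5
    have h6 := mul_le_mul_of_nonneg_left h5 hx0.le
    have h7 : x * (y / x - 1) = y - x := by field_simp
    linarith
  have e4 : (y - x) * L ≤ (y - x) * Real.log y := mul_le_mul_of_nonneg_left (by linarith) hd0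
  have e5 : (y - x) * Real.log y ≤ (y - x) * (L + 1) := mul_le_mul_of_nonneg_left hly hd0
  rw [← sub_div, abs_le]
  constructor
  · rw [le_div_iff₀ (by positivity)]
    have : 0 ≤ 12 * (2 * Real.pi) := by positivity
    linarith
  · rw [div_le_iff₀ (by positivity)]
    have : (y - x) * (L + 1) = (y - x) * L + (y - x) := by ring
    linarith

end Rig
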