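import Pool.Agent.H382L.NoZero

/-! # Kernel: cosine transform of the Selberg profile `w3` times a Gaussian -/

open Complex Filter Topology Set MeasureTheory

namespace Rig

open LG.NoZero

/-- cosine transform of the profile -/
noncomputable def kap (l v : ℝ) : ℝ := ∫ u in (0 : ℝ)..l, w3 l u * Real.cos (u * v)

/-- Gaussian times cosine transform -/
noncomputable def kg (l v : ℝ) : ℝ := Real.exp (-v ^ 2 / 2) * kap l v

/-- the edge function -/
noncomputable def EE (l a : ℝ) : ℝ := Real.exp (-a ^ 2 / 2) / (1 + (l * a) ^ 2)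

theorem kap_eq {l : ℝ} (hl : 0 < l) (v : ℝ) : kap l v =
    ∫ u in (0 : ℝ)..l, ((1 - u / l) + Real.sin (2 * Real.pi * u / l) / (2 * Real.pi)) *
        Real.cos (u * v) := by
  unfold kap
  refine intervalIntegral.integral_congr fun u hu => ?_
  rw [uIcc_of_le hl.le] at hu
  show w3 l u * Real.cos (u * v) = _
  rw [w3_val hu.1 hu.2]

theorem kap_formula {l x : ℝ} (hl : 0 < l) (hx0 : x ≠ 0)
    (hne : (2 * Real.pi / l) ^ 2 - x ^ 2 ≠ 0) :
    kap l x = (1 - Real.cos (l * x)) / l *
      ((2 * Real.pi / l) ^ 2 / (x ^ 2 * ((2 * Real.pi / l) ^ 2 - x ^ 2))) := by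
  have hpi := Real.pi_pos
  rw [kap_eq hl]
  set a : ℝ := 2 * Real.pi / l with ha
  have ha0 : 0 < a := by positivity
  have hal : a * l = 2 * Real.pi := by rw [ha]; field_simp
  have e1 : ∫ u in (0 : ℝ)..l, ((1 - u / l) + Real.sin (2 * Real.pi * u / l) / (2 * Real.pi)) *
        Real.cos (u * x) = (∫ u in (0 : ℝ)..l, (1 - u / l) * Real.cos (u * x)) +
        (1 / (2 * Real.pi)) * ∫ u in (0 : ℝ)..l, Real.sin (a * u) * Real.cos (u * x) := by
    rw [← intervalIntegral.integral_const_mul, ← intervalIntegral.integral_add]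
    · refine intervalIntegral.integral_congr fun u _ => ?_
      show _ = (1 - u / l) * Real.cos (u * x) + 1 / (2 * Real.pi) *
        (Real.sin (a * u) * Real.cos (u * x))
      have : 2 * Real.pi * u / l = a * u := by rw [ha]; ring
      rw [this]
      ring
    · apply Continuous.intervalIntegrable; fun_prop
    · apply Continuous.intervalIntegrable; fun_prop
  rw [e1, int_tri hl hx0]
  rw [int_sin hne, hal, Real.cos_two_pi, Real.sin_two_pi]
  have h4 : (2 * Real.pi) = a * l := hal.symm
  rw [h4]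
  have hl0 := hl.ne'
  have ha1 := ha0.ne'
  field_simp
  ring

theorem kap_le {l : ℝ} (hl : 0 < l) (v : ℝ) : |kap l v| ≤ 2 * l := by
  unfold kap
  have h := intervalIntegral.norm_integral_le_of_norm_le_const (a := 0) (b := l) (C := 2)
    (f := fun u => w3 l u * Real.cos (u * v)) ?_
  · rw [sub_zero, abs_of_pos hl, Real.norm_eq_abs] at h
    exact h
  · intro u _
    rw [norm_mul, Real.norm_eq_abs, Real.norm_eq_abs]
    calc |w3 l u| * |Real.cos (u * v)| ≤ 2 * 1 :=
          mul_le_mul (w3_abs hl u) (Real.abs_cos_le_one _) (abs_nonneg _) (by norm_num)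
      _ = 2 := by norm_num

/-- decay of the transform -/
theorem kap_decay {l : ℝ} (hl : 0 < l) (v : ℝ) :
    |kap l v| ≤ 16400 * l / (1 + (l * v) ^ 2) ^ 2 := by
  have hpi := Real.pi_pos
  have hpi3 := Real.pi_gt_three
  have hpi4 : Real.pi < 3.15 := Real.pi_lt_d2
  by_cases h : |l * v| ≤ 3 * Real.pi
  · have h1 : (l * v) ^ 2 ≤ 89.4 := by
      have h2 : (l * v) ^ 2 ≤ (3 * Real.pi) ^ 2 := by
        rw [← sq_abs]
        exact pow_le_pow_left₀ (abs_nonneg _) h 2
      nlinarith
    have h2 : (1 + (l * v) ^ 2) ^ 2 ≤ 8190 := by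
      have h0 : 0 ≤ (l * v) ^ 2 := sq_nonneg _
      nlinarith
    have h3 : 0 < (1 + (l * v) ^ 2) ^ 2 := by positivity
    refine (kap_le hl v).trans ?_
    rw [le_div_iff₀ h3]
    have h4 := mul_le_mul_of_nonneg_left h2 (by positivity : 0 ≤ 2 * l)
    linarith
  · push Not at h
    have hv0 : v ≠ 0 := by
      rintro rfl
      rw [mul_zero, abs_zero] at h
      linarith
    have hlv : 9 * Real.pi ^ 2 < (l * v) ^ 2 := by
      rw [← sq_abs (l * v)]
      have := pow_lt_pow_left₀ h (by positivity) (n := 2) (by norm_num)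
      nlinarith
    set y : ℝ := (l * v) ^ 2 with hy
    have hy0 : 0 < y := by positivity
    have hne : (2 * Real.pi / l) ^ 2 - v ^ 2 < 0 := by
      have e : (2 * Real.pi / l) ^ 2 - v ^ 2 = (4 * Real.pi ^ 2 - y) / l ^ 2 := by
        rw [hy]; field_simp; ring
      rw [e]
      apply div_neg_of_neg_of_pos _ (by positivity)
      nlinarith
    rw [kap_formula hl hv0 hne.ne]
    have e : (1 - Real.cos (l * v)) / l *
      ((2 * Real.pi / l) ^ 2 / (v ^ 2 * ((2 * Real.pi / l) ^ 2 - v ^ 2))) =
      -((1 - Real.cos (l * v)) * (4 * Real.pi ^ 2) * l / (y * (y - 4 * Real.pi ^ 2))) := by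
      have h4 : 0 < y - 4 * Real.pi ^ 2 := by nlinarith
      have e1 : (2 * Real.pi / l) ^ 2 - v ^ 2 = -(y - 4 * Real.pi ^ 2) / l ^ 2 := by
        rw [hy]; field_simp; ring
      have e2 : v ^ 2 = y / l ^ 2 := by rw [hy]; field_simp
      rw [e1, e2]
      field_simp
      ring
    rw [e, abs_neg]
    have h4 : 0 < y - 4 * Real.pi ^ 2 := by nlinarith
    have hc1 := Real.cos_le_one (l * v)
    have hc2 := Real.neg_one_le_cos (l * v)
    have h5 : 0 ≤ (1 - Real.cos (l * v)) * (4 * Real.pi ^ 2) * l /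
        (y * (y - 4 * Real.pi ^ 2)) := by
      apply div_nonneg _ (by positivity)
      apply mul_nonneg (mul_nonneg (by linarith) (by positivity)) hl.le
    rw [abs_of_nonneg h5, div_le_div_iff₀ (by positivity) (by positivity)]
    have h6 : y - 4 * Real.pi ^ 2 ≥ 5 / 9 * y := by nlinarith
    have hy81 : 81 < y := by nlinarith
    have h7 : (1 + y) ^ 2 ≤ 2 * y ^ 2 := by nlinarith
    have h8 : (1 - Real.cos (l * v)) * (4 * Real.pi ^ 2) ≤ 2 * 40 := by
      have : 4 * Real.pi ^ 2 ≤ 40 := by nlinarith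
      have h9 : 0 ≤ 4 * Real.pi ^ 2 := by positivity
      nlinarith
    calc (1 - Real.cos (l * v)) * (4 * Real.pi ^ 2) * l * (1 + y) ^ 2
        ≤ 2 * 40 * l * (2 * y ^ 2) := by
          apply mul_le_mul (mul_le_mul_of_nonneg_right h8 hl.le) h7 (by positivity) (by positivity)
      _ ≤ 16400 * l * (y * (5 / 9 * y)) := by
          have : 0 ≤ l * y ^ 2 := by positivity
          nlinarith
      _ ≤ 16400 * l * (y * (y - 4 * Real.pi ^ 2)) := by
          apply mul_le_mul_of_nonneg_left _ (by positivity)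
          exact mul_le_mul_of_nonneg_left h6 hy0.le

theorem kap_cont {l : ℝ} (hl : 0 < l) : Continuous (kap l) := by
  unfold kap
  apply intervalIntegral.continuous_parametric_intervalIntegral_of_continuous'
  have := w3_cont hl
  fun_prop

theorem kg_cont {l : ℝ} (hl : 0 < l) : Continuous (kg l) := by
  unfold kg
  have := kap_cont hl
  fun_prop

theorem kg_abs {l : ℝ} (hl : 0 < l) (v : ℝ) :
    |kg l v| ≤ Real.exp (-v ^ 2 / 2) * (16400 * l / (1 + (l * v) ^ 2) ^ 2) := by
  unfold kg
  rw [abs_mul, abs_of_pos (Real.exp_pos _)]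
  exact mul_le_mul_of_nonneg_left (kap_decay hl v) (Real.exp_pos _).le

theorem lor_int {l : ℝ} (hl : 0 < l) :
    Integrable (fun v : ℝ => l / (1 + (l * v) ^ 2)) ∧ ∫ v : ℝ, l / (1 + (l * v) ^ 2) = Real.pi := by
  have h1 := integrable_inv_one_add_sq.comp_mul_left' hl.ne'
  have h2 : (fun v : ℝ => l / (1 + (l * v) ^ 2)) = fun v : ℝ => l * (1 + (l * v) ^ 2)⁻¹ := by
    ext v
    rw [div_eq_mul_inv]
  rw [h2]
  refine ⟨h1.const_mul l, ?_⟩
  rw [integral_const_mul]
  have h3 := Measure.integral_comp_mul_left (fun x : ℝ => (1 + x ^ 2)⁻¹) l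
  rw [h3, integral_univ_inv_one_add_sq, abs_of_pos (by positivity : 0 < l⁻¹), smul_eq_mul]
  field_simp

theorem kg_integrable {l : ℝ} (hl : 0 < l) : Integrable (kg l) := by
  apply Integrable.mono' ((lor_int hl).1.const_mul 16400) (kg_cont hl).aestronglyMeasurable
  refine Eventually.of_forall fun v => ?_
  rw [Real.norm_eq_abs]
  refine (kg_abs hl v).trans ?_
  have h1 : Real.exp (-v ^ 2 / 2) ≤ 1 := by
    rw [Real.exp_le_one_iff]
    have := sq_nonneg v
    linarith
  have h2 : 1 ≤ 1 + (l * v) ^ 2 := by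
    have := sq_nonneg (l * v)
    linarith
  calc Real.exp (-v ^ 2 / 2) * (16400 * l / (1 + (l * v) ^ 2) ^ 2)
      ≤ 1 * (16400 * l / (1 + (l * v) ^ 2)) := by
        apply mul_le_mul h1 _ (by positivity) zero_le_one
        apply div_le_div_of_nonneg_left (by positivity) (by positivity)
        exact le_self_pow₀ h2 (by norm_num)
    _ = _ := by ring

/-- tails of the kernel -/
theorem kg_tail {l : ℝ} (hl : 0 < l) (d : ℝ) (hd : 0 ≤ d) (S : Set ℝ) (hS : MeasurableSet S)
    (hSd : ∀ v ∈ S, d ≤ |v|) : |∫ v in S, kg l v| ≤ 16400 * Real.pi * EE l d := by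
  have h1 : ‖∫ v in S, kg l v‖ ≤ ∫ v in S, 16400 * EE l d * (l / (1 + (l * v) ^ 2)) := by
    apply norm_integral_le_of_norm_le
    · exact ((lor_int hl).1.const_mul _).integrableOn
    · refine (ae_restrict_iff' hS).2 (Eventually.of_forall fun v hv => ?_)
      rw [Real.norm_eq_abs]
      refine (kg_abs hl v).trans ?_
      have h2 : d ^ 2 ≤ v ^ 2 := by
        rw [← sq_abs v]
        exact pow_le_pow_left₀ hd (hSd v hv) 2
      have h3 : Real.exp (-v ^ 2 / 2) ≤ Real.exp (-d ^ 2 / 2) := by
        apply Real.exp_le_exp.2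
        linarith
      have h4 : 1 + (l * d) ^ 2 ≤ 1 + (l * v) ^ 2 := by
        rw [mul_pow, mul_pow]
        have : l ^ 2 * d ^ 2 ≤ l ^ 2 * v ^ 2 := mul_le_mul_of_nonneg_left h2 (by positivity)
        linarith
      unfold EE
      have h5 : 16400 * l / (1 + (l * v) ^ 2) ^ 2 ≤
          16400 * (1 / (1 + (l * d) ^ 2)) * (l / (1 + (l * v) ^ 2)) := by
        have e : 16400 * l / (1 + (l * v) ^ 2) ^ 2 =
            16400 * (1 / (1 + (l * v) ^ 2)) * (l / (1 + (l * v) ^ 2)) := by
          field_simp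
        rw [e]
        apply mul_le_mul_of_nonneg_right _ (by positivity)
        apply mul_le_mul_of_nonneg_left _ (by norm_num)
        exact one_div_le_one_div_of_le (by positivity) h4
      calc Real.exp (-v ^ 2 / 2) * (16400 * l / (1 + (l * v) ^ 2) ^ 2)
          ≤ Real.exp (-d ^ 2 / 2) *
            (16400 * (1 / (1 + (l * d) ^ 2)) * (l / (1 + (l * v) ^ 2))) :=
            mul_le_mul h3 h5 (by positivity) (Real.exp_pos _).le
        _ = _ := by ring
  rw [Real.norm_eq_abs] at h1
  refine h1.trans ?_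
  have hE : 0 ≤ EE l d := by unfold EE; positivity
  rw [integral_const_mul]
  have h2 : ∫ v in S, l / (1 + (l * v) ^ 2) ≤ Real.pi := by
    rw [← (lor_int hl).2]
    apply setIntegral_le_integral (lor_int hl).1
    exact Eventually.of_forall fun v => by
      show 0 ≤ l / (1 + (l * v) ^ 2)
      positivity
  calc 16400 * EE l d * ∫ v in S, l / (1 + (l * v) ^ 2) ≤ 16400 * EE l d * Real.pi :=
        mul_le_mul_of_nonneg_left h2 (by positivity)
    _ = _ := by ring

theorem gauss_cos (u : ℝ) : ∫ v : ℝ, Real.cos (u * v) * Real.exp (-v ^ 2 / 2) =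
    Real.sqrt (2 * Real.pi) * Real.exp (-u ^ 2 / 2) := by
  have h := fourierIntegral_gaussian (b := 1 / 2) (by norm_num) (u : ℂ)
  have hint : Integrable (fun x : ℝ => cexp (I * u * x) * cexp (-(1 / 2 : ℂ) * x ^ 2)) := by
    have := integrable_cexp_quadratic' (b := -(1 / 2 : ℂ)) (by norm_num) (I * u) 0
    refine this.congr (Eventually.of_forall fun x => ?_)
    simp only
    rw [← Complex.exp_add]
    congr 1
    ring
  have h2 := congrArg Complex.re h
  rw [← Complex.reCLM_apply, ← ContinuousLinearMap.integral_comp_comm _ hint] at h2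
  have h3 : ∀ x : ℝ, Complex.reCLM (cexp (I * u * x) * cexp (-(1 / 2 : ℂ) * x ^ 2)) =
      Real.cos (u * x) * Real.exp (-x ^ 2 / 2) := by
    intro x
    have e1 : cexp (-(1 / 2 : ℂ) * x ^ 2) = ((Real.exp (-x ^ 2 / 2) : ℝ) : ℂ) := by
      push_cast
      congr 1
      ring
    have e2 : I * u * x = ((u * x : ℝ) : ℂ) * I := by push_cast; ring
    rw [Complex.reCLM_apply, e1, e2, Complex.re_mul_ofReal, Complex.exp_ofReal_mul_I_re]
  simp_rw [h3] at h2
  rw [h2]
  have e4 : ((Real.pi : ℂ) / (1 / 2)) ^ (1 / 2 : ℂ) = ((Real.sqrt (2 * Real.pi) : ℝ) : ℂ) := by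
    rw [Real.sqrt_eq_rpow, Complex.ofReal_cpow (by positivity)]
    push_cast
    congr 1
    ring
  have e5 : cexp (-(u : ℂ) ^ 2 / (4 * (1 / 2))) = ((Real.exp (-u ^ 2 / 2) : ℝ) : ℂ) := by
    push_cast
    congr 1
    ring
  rw [e4, e5, ← Complex.ofReal_mul, Complex.ofReal_re]

/-- total mass of the kernel -/
theorem kg_mass {l : ℝ} (hl : 0 < l) : ∫ v : ℝ, kg l v = Real.sqrt (2 * Real.pi) * GG3 l := by
  have h1 : ∀ v, kg l v = ∫ u in Set.Ioc 0 l, w3 l u * Real.cos (u * v) * Real.exp (-v ^ 2 / 2) := by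
    intro v
    unfold kg kap
    rw [intervalIntegral.integral_of_le hl.le, ← integral_const_mul]
    congr 1
    ext u
    ring
  simp_rw [h1]
  rw [integral_integral_swap]
  · have h2 : ∀ u, ∫ v : ℝ, w3 l u * Real.cos (u * v) * Real.exp (-v ^ 2 / 2) =
        w3 l u * (Real.sqrt (2 * Real.pi) * Real.exp (-u ^ 2 / 2)) := by
      intro u
      rw [← gauss_cos, ← integral_const_mul]
      congr 1
      ext v
      ring
    simp_rw [h2]
    unfold GG3
    rw [← integral_const_mul]
    refine (setIntegral_eq_of_subset_of_forall_sdiff_eq_zero measurableSet_Ioi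
      (fun x hx => hx.1) ?_).symm.trans ?_
    · intro x hx
      have hx1 : l < x := by
        by_contra h
        exact hx.2 ⟨hx.1, not_lt.1 h⟩
      rw [w3_zero hl hx1.le, zero_mul]
    · apply setIntegral_congr_fun measurableSet_Ioi
      intro u _
      show _ = _
      ring
  · have hg : Integrable (fun v : ℝ => 2 * Real.exp (-v ^ 2 / 2)) := by
      have h := (integrable_exp_neg_mul_sq (b := 1 / 2) (by norm_num)).const_mul 2
      refine h.congr (Eventually.of_forall fun v => ?_)
      simp only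
      congr 2
      ring
    have hi : Integrable (fun z : ℝ × ℝ => (2 * Real.exp (-z.1 ^ 2 / 2)) * (1 : ℝ))
        ((volume : Measure ℝ).prod (volume.restrict (Set.Ioc 0 l))) := by
      have h1 : Integrable (fun _ : ℝ => (1 : ℝ)) (volume.restrict (Set.Ioc 0 l)) := by
        apply integrable_const
      exact hg.mul_prod h1
    apply Integrable.mono' hi
    · apply Continuous.aestronglyMeasurable
      have := w3_cont hl
      fun_prop
    · refine Eventually.of_forall fun z => ?_
      simp only [Function.uncurry, Real.norm_eq_abs, mul_one]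
      rw [abs_mul, abs_mul, abs_of_pos (Real.exp_pos _)]
      apply mul_le_mul_of_nonneg_right _ (Real.exp_pos _).le
      calc |w3 l z.2| * |Real.cos (z.2 * z.1)| ≤ 2 * 1 :=
            mul_le_mul (w3_abs hl _) (Real.abs_cos_le_one _) (abs_nonneg _) (by norm_num)
        _ = 2 := by norm_num

theorem EE_neg (l a : ℝ) : EE l (-a) = EE l a := by
  unfold EE
  rw [neg_sq, mul_neg, neg_sq]

theorem EE_abs (l a : ℝ) : EE l |a| = EE l a := by
  rcases abs_choice a with h | h
  · rw [h]
  · rw [h, EE_neg]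

theorem EE_nonneg (l a : ℝ) : 0 ≤ EE l a := by
  unfold EE
  positivity

/-- the smoothed indicator -/
theorem kg_window {l : ℝ} (hl : 0 < l) (h a : ℝ) (hh : 0 ≤ h) :
    |(∫ v in (a - h)..a, kg l v) - (Real.sqrt (2 * Real.pi) * GG3 l) *
      (if 0 ≤ a ∧ a ≤ h then 1 else 0)| ≤ 16400 * Real.pi * (EE l a + EE l (a - h)) := by
  have hi := kg_integrable hl
  have hE1 := EE_nonneg l a
  have hE2 := EE_nonneg l (a - h)
  have hpi := Real.pi_pos
  rw [intervalIntegral.integral_of_le (by linarith)]
  by_cases h1 : 0 ≤ a ∧ a ≤ h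
  · rw [if_pos h1, mul_one, ← kg_mass hl]
    have h2 : ∫ v, kg l v = (∫ v in Set.Ioc (a - h) a, kg l v) +
        ((∫ v in Set.Iic (a - h), kg l v) + ∫ v in Set.Ioi a, kg l v) := by
      rw [← integral_add_compl (measurableSet_Ioc (a := a - h) (b := a)) hi]
      congr 1
      have e : (Set.Ioc (a - h) a)ᶜ = Set.Iic (a - h) ∪ Set.Ioi a := by
        ext v
        simp only [Set.mem_compl_iff, Set.mem_Ioc, not_and, not_le, Set.mem_union, Set.mem_Iic,
          Set.mem_Ioi]
        constructor
        · intro h3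
          by_cases h4 : a - h < v
          · exact Or.inr (h3 h4)
          · exact Or.inl (not_lt.1 h4)
        · rintro (h3 | h3) h4
          · linarith
          · exact h3
      rw [e, setIntegral_union _ measurableSet_Ioi hi.integrableOn hi.integrableOn]
      rw [Set.disjoint_left]
      intro v hv hv2
      have h3 : v ≤ a - h := hv
      have h4 : a < v := hv2
      linarith
    rw [h2]
    have h3 := kg_tail hl (h - a) (by linarith) (Set.Iic (a - h)) measurableSet_Iic (by
      intro v hv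
      have h3 : v ≤ a - h := hv
      rw [le_abs]
      right
      linarith)
    have h4 := kg_tail hl a h1.1 (Set.Ioi a) measurableSet_Ioi (by
      intro v hv
      have h3 : a < v := hv
      rw [le_abs]
      left
      linarith)
    have e : EE l (h - a) = EE l (a - h) := by
      rw [← EE_neg]
      congr 1
      ring
    rw [e] at h3
    rw [abs_le] at h3 h4 ⊢
    constructor <;> linarith
  · rw [if_neg h1, mul_zero, sub_zero]
    rw [not_and_or, not_le, not_le] at h1
    rcases h1 with h1 | h1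
    · have h3 := kg_tail hl (-a) (by linarith) (Set.Ioc (a - h) a) measurableSet_Ioc (by
        intro v hv
        rw [le_abs]
        right
        linarith [hv.2])
      rw [EE_neg] at h3
      refine h3.trans ?_
      apply mul_le_mul_of_nonneg_left _ (by positivity)
      linarith
    · have h3 := kg_tail hl (a - h) (by linarith) (Set.Ioc (a - h) a) measurableSet_Ioc (by
        intro v hv
        rw [le_abs]
        left
        linarith [hv.1])
      refine h3.trans ?_
      apply mul_le_mul_of_nonneg_left _ (by positivity)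
      linarith

end Rig
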